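import Mathlib

/-!
# Sigma classes of predicates

`IsSig S`: the class `S` of predicates on `ℕ` contains the primitive recursive ones and is closed
under conjunction, disjunction, existential quantification, bounded universal quantification and
primitive recursive substitution.
-/

open Encodable

namespace EXT88

/-- A class of predicates on `ℕ` closed under the positive `Σ₁` operations. -/
structure IsSig (𝓢 : Set (ℕ → Prop)) : Prop where
  prim : ∀ p : ℕ → Prop, PrimrecPred p → p ∈ 𝓢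
  subst : ∀ (p : ℕ → Prop) (f : ℕ → ℕ), p ∈ 𝓢 → Primrec f → (fun n => p (f n)) ∈ 𝓢
  and : ∀ p q : ℕ → Prop, p ∈ 𝓢 → q ∈ 𝓢 → (fun n => p n ∧ q n) ∈ 𝓢
  or : ∀ p q : ℕ → Prop, p ∈ 𝓢 → q ∈ 𝓢 → (fun n => p n ∨ q n) ∈ 𝓢
  ex : ∀ p : ℕ → Prop, p ∈ 𝓢 → (fun n => ∃ m, p (Nat.pair n m)) ∈ 𝓢
  ball : ∀ p : ℕ → Prop, p ∈ 𝓢 → (fun n => ∀ i < n, p (Nat.pair n i)) ∈ 𝓢

variable {𝓢 : Set (ℕ → Prop)} {α β γ δ : Type} [Primcodable α] [Primcodable β] [Primcodable γ]
  [Primcodable δ]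

/-- The typed version of membership in `𝓢`. -/
def Sg (𝓢 : Set (ℕ → Prop)) (p : α → Prop) : Prop :=
  (fun n : ℕ => ∃ a : α, decode n = some a ∧ p a) ∈ 𝓢

theorem sg_nat {p : ℕ → Prop} : Sg 𝓢 p ↔ p ∈ 𝓢 := by
  unfold Sg
  have : (fun n : ℕ => ∃ a : ℕ, decode n = some a ∧ p a) = p := by
    funext n; simp
  rw [this]

theorem Sg.congr {p q : α → Prop} (h : Sg 𝓢 p) (e : ∀ a, p a ↔ q a) : Sg 𝓢 q := by
  have : p = q := by funext a; exact propext (e a)
  rwa [← this]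

theorem Sg.mono {𝓢 𝓣 : Set (ℕ → Prop)} (h𝓢 : 𝓢 ⊆ 𝓣) {p : α → Prop} (h : Sg 𝓢 p) : Sg 𝓣 p :=
  h𝓢 h

namespace IsSig

variable (h𝓢 : IsSig 𝓢)
include h𝓢

theorem comp {p : β → Prop} {f : α → β} (hp : Sg 𝓢 p) (hf : Primrec f) :
    Sg 𝓢 (fun a => p (f a)) := by
  unfold Sg at *
  set P : ℕ → Prop := fun n => ∃ a : β, decode n = some a ∧ p a with hP
  have h1 : (fun n : ℕ => n ≠ 0 ∧ P (n - 1)) ∈ 𝓢 := by
    apply h𝓢.and
    · apply h𝓢.prim
      exact (Primrec.eq.comp Primrec.id (Primrec.const 0)).not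
    · exact h𝓢.subst P (fun n => n - 1) hp (Primrec.nat_sub.comp Primrec.id (Primrec.const 1))
  have hg : Primrec (fun n : ℕ => (encode (Option.map f (decode n : Option α)) : ℕ)) := by
    exact Primrec.encode.comp (Primrec.option_map Primrec.decode (hf.comp Primrec.snd).to₂)
  have h2 := h𝓢.subst _ _ h1 hg
  convert h2 using 2 with n
  cases h : (decode n : Option α) with
  | none => simp
  | some a => simp [hP]

theorem primPred {p : α → Prop} (hp : PrimrecPred p) : Sg 𝓢 p := by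
  unfold Sg
  apply h𝓢.prim
  obtain ⟨_, hp⟩ := hp
  have : Primrec (fun n : ℕ => (Option.map (fun a => decide (p a)) (decode n : Option α)).getD false) := by
    exact Primrec.option_getD.comp (Primrec.option_map Primrec.decode (hp.comp Primrec.snd).to₂)
      (Primrec.const false)
  refine (Primrec.eq.comp this (Primrec.const true)).of_eq ?_
  intro n
  cases h : (decode n : Option α) with
  | none => simp
  | some a => simp

theorem primRel {p : α → β → Prop} (hp : PrimrecRel p) : Sg 𝓢 (fun x : α × β => p x.1 x.2) :=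
  h𝓢.primPred hp

theorem and' {p q : α → Prop} (hp : Sg 𝓢 p) (hq : Sg 𝓢 q) : Sg 𝓢 (fun a => p a ∧ q a) := by
  unfold Sg at *
  convert h𝓢.and _ _ hp hq using 2 with n
  cases h : (decode n : Option α) with
  | none => simp
  | some a => simp

theorem or' {p q : α → Prop} (hp : Sg 𝓢 p) (hq : Sg 𝓢 q) : Sg 𝓢 (fun a => p a ∨ q a) := by
  unfold Sg at *
  convert h𝓢.or _ _ hp hq using 2 with n
  cases h : (decode n : Option α) with
  | none => simp
  | some a => simp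

theorem ex' {p : α → β → Prop} (hp : Sg 𝓢 (fun x : α × β => p x.1 x.2)) :
    Sg 𝓢 (fun a => ∃ b, p a b) := by
  unfold Sg at *
  convert h𝓢.ex _ hp using 2 with n
  simp only [decode_prod_val, Nat.unpair_pair]
  cases h : (decode n : Option α) with
  | none => simp
  | some a =>
    simp only [Option.some.injEq, Prod.exists, Option.bind_some, Option.map_eq_some_iff,
      Prod.mk.injEq, exists_eq_left']
    constructor
    · rintro ⟨b, hb⟩
      exact ⟨encode b, a, b, ⟨b, by simp, rfl, rfl⟩, hb⟩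
    · rintro ⟨m, a', b, ⟨b', _, rfl, rfl⟩, h⟩
      exact ⟨_, h⟩

theorem true' : Sg 𝓢 (fun _ : α => True) := by
  apply h𝓢.primPred
  exact (Primrec.eq.comp (Primrec.const 0) (Primrec.const 0)).of_eq (by simp)

theorem false' : Sg 𝓢 (fun _ : α => False) := by
  apply h𝓢.primPred
  exact (Primrec.eq.comp (Primrec.const 0) (Primrec.const 1)).of_eq (by simp)

theorem ball_lt {p : α → ℕ → Prop} {k : α → ℕ} (hp : Sg 𝓢 (fun x : α × ℕ => p x.1 x.2))
    (hk : Primrec k) : Sg 𝓢 (fun a => ∀ i < k a, p a i) := by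
  -- work on codes
  have hP : (fun n : ℕ => ∃ a : α × ℕ, decode n = some a ∧ p a.1 a.2) ∈ 𝓢 := hp
  set P : ℕ → Prop := fun n => ∃ a : α × ℕ, decode n = some a ∧ p a.1 a.2 with hPdef
  have h1 : (fun m : ℕ => (m.unpair.1.unpair.2 ≤ m.unpair.2) ∨
      P (Nat.pair m.unpair.1.unpair.1 m.unpair.2)) ∈ 𝓢 := by
    apply h𝓢.or
    · apply h𝓢.prim
      exact Primrec.nat_le.comp (Primrec.snd.comp (Primrec.unpair.comp (Primrec.fst.comp Primrec.unpair)))
        (Primrec.snd.comp Primrec.unpair)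
    · apply h𝓢.subst P _ hP
      exact Primrec₂.natPair.comp (Primrec.fst.comp (Primrec.unpair.comp (Primrec.fst.comp Primrec.unpair)))
        (Primrec.snd.comp Primrec.unpair)
  have h2 := h𝓢.ball _ h1
  have h3 : Sg 𝓢 (fun n : ℕ => ∀ i < n, (Nat.pair n i).unpair.1.unpair.2 ≤ (Nat.pair n i).unpair.2 ∨
      P (Nat.pair (Nat.pair n i).unpair.1.unpair.1 (Nat.pair n i).unpair.2)) := sg_nat.2 h2
  have h4 := h𝓢.comp (f := fun a : α => Nat.pair (encode a) (k a)) h3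
    (Primrec₂.natPair.comp Primrec.encode hk)
  refine h4.congr ?_
  intro a
  simp only [Nat.unpair_pair]
  constructor
  · intro h i hi
    have := h i (lt_of_lt_of_le hi (Nat.right_le_pair _ _))
    rcases this with h' | h'
    · omega
    · simpa [hPdef, decode_prod_val] using h'
  · intro h i _
    rcases Nat.lt_or_ge i (k a) with hi | hi
    · right
      simpa [hPdef, decode_prod_val] using h i hi
    · left; exact hi

theorem ball_mem {p : α → β → Prop} {l : α → List β} (hp : Sg 𝓢 (fun x : α × β => p x.1 x.2))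
    (hl : Primrec l) : Sg 𝓢 (fun a => ∀ b ∈ l a, p a b) := by
  have h1 : Sg 𝓢 (fun x : (α × ℕ) × β => (l x.1.1)[x.1.2]? = some x.2 ∧ p x.1.1 x.2) := by
    apply h𝓢.and'
    · apply h𝓢.primPred
      exact Primrec.eq.comp (Primrec.list_getElem?.comp (hl.comp (Primrec.fst.comp Primrec.fst))
        (Primrec.snd.comp Primrec.fst)) (Primrec.option_some.comp Primrec.snd)
    · exact h𝓢.comp hp (Primrec.pair (Primrec.fst.comp Primrec.fst) Primrec.snd)
  have h2 : Sg 𝓢 (fun x : α × ℕ => ∃ b, (l x.1)[x.2]? = some b ∧ p x.1 b) := h𝓢.ex' h1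
  have h3 := h𝓢.ball_lt (p := fun a i => ∃ b, (l a)[i]? = some b ∧ p a b) h2
    (Primrec.list_length.comp hl)
  refine h3.congr ?_
  intro a
  constructor
  · intro h b hb
    obtain ⟨i, hi, rfl⟩ := List.getElem_of_mem hb
    obtain ⟨b', hb', hp'⟩ := h i hi
    rw [List.getElem?_eq_getElem hi] at hb'
    simp only [Option.some.injEq] at hb'
    rw [hb']; exact hp'
  · intro h i hi
    exact ⟨(l a)[i], List.getElem?_eq_getElem hi, h _ (List.getElem_mem hi)⟩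

theorem ex_lt {p : α → ℕ → Prop} {k : α → ℕ} (hp : Sg 𝓢 (fun x : α × ℕ => p x.1 x.2))
    (hk : Primrec k) : Sg 𝓢 (fun a => ∃ i < k a, p a i) := by
  have h1 : Sg 𝓢 (fun x : α × ℕ => x.2 < k x.1 ∧ p x.1 x.2) := by
    apply h𝓢.and' _ hp
    apply h𝓢.primPred
    exact Primrec.nat_lt.comp Primrec.snd (hk.comp Primrec.fst)
  exact h𝓢.ex' h1

theorem ex_mem {p : α → β → Prop} {l : α → List β} (hp : Sg 𝓢 (fun x : α × β => p x.1 x.2))
    (hl : Primrec l) : Sg 𝓢 (fun a => ∃ b ∈ l a, p a b) := by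
  have h1 : Sg 𝓢 (fun x : α × β => (∃ i : ℕ, (l x.1)[i]? = some x.2) ∧ p x.1 x.2) := by
    apply h𝓢.and' _ hp
    apply h𝓢.ex' (p := fun (x : α × β) (i : ℕ) => (l x.1)[i]? = some x.2)
    apply h𝓢.primPred
    exact Primrec.eq.comp (Primrec.list_getElem?.comp (hl.comp (Primrec.fst.comp Primrec.fst))
        (Primrec.snd)) (Primrec.option_some.comp (Primrec.snd.comp Primrec.fst))
  refine (h𝓢.ex' (p := fun (a : α) (b : β) => (∃ i : ℕ, (l a)[i]? = some b) ∧ p a b) h1).congr ?_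
  intro a
  simp only [List.mem_iff_getElem?]

/-- Pairwise relations on lists. -/
theorem pairwise {p : α → β → β → Prop} {l : α → List β}
    (hp : Sg 𝓢 (fun x : α × β × β => p x.1 x.2.1 x.2.2)) (hl : Primrec l) :
    Sg 𝓢 (fun a => (l a).Pairwise (p a)) := by
  have h1 : Sg 𝓢 (fun x : ((α × ℕ) × ℕ) × β × β => ((l x.1.1.1)[x.1.2]? = some x.2.1 ∧
      (l x.1.1.1)[x.1.1.2]? = some x.2.2) ∧ p x.1.1.1 x.2.1 x.2.2) := by
    apply h𝓢.and'
    · apply h𝓢.and'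
      · apply h𝓢.primPred
        exact Primrec.eq.comp (Primrec.list_getElem?.comp
          (hl.comp (Primrec.fst.comp (Primrec.fst.comp Primrec.fst)))
          (Primrec.snd.comp Primrec.fst)) (Primrec.option_some.comp (Primrec.fst.comp Primrec.snd))
      · apply h𝓢.primPred
        exact Primrec.eq.comp (Primrec.list_getElem?.comp
          (hl.comp (Primrec.fst.comp (Primrec.fst.comp Primrec.fst)))
          (Primrec.snd.comp (Primrec.fst.comp Primrec.fst)))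
          (Primrec.option_some.comp (Primrec.snd.comp Primrec.snd))
    · exact h𝓢.comp hp (Primrec.pair (Primrec.fst.comp (Primrec.fst.comp Primrec.fst)) Primrec.snd)
  have h2 : Sg 𝓢 (fun x : (α × ℕ) × ℕ => ∃ b : β × β, ((l x.1.1)[x.2]? = some b.1 ∧
      (l x.1.1)[x.1.2]? = some b.2) ∧ p x.1.1 b.1 b.2) := h𝓢.ex' h1
  have h3 := h𝓢.ball_lt (k := fun x : α × ℕ => x.2)
    (p := fun (x : α × ℕ) (i : ℕ) => ∃ b : β × β, ((l x.1)[i]? = some b.1 ∧
      (l x.1)[x.2]? = some b.2) ∧ p x.1 b.1 b.2) h2 Primrec.snd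
  have h4 := h𝓢.ball_lt (k := fun a => (l a).length)
    (p := fun (a : α) (j : ℕ) => ∀ i < j, ∃ b : β × β, ((l a)[i]? = some b.1 ∧
      (l a)[j]? = some b.2) ∧ p a b.1 b.2) h3 (Primrec.list_length.comp hl)
  refine h4.congr ?_
  intro a
  rw [List.pairwise_iff_getElem]
  constructor
  · intro h i j hi hj hij
    obtain ⟨b, ⟨h1, h2⟩, h3⟩ := h j hj i hij
    rw [List.getElem?_eq_getElem hi] at h1
    rw [List.getElem?_eq_getElem hj] at h2
    simp only [Option.some.injEq] at h1 h2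
    rw [h1, h2]; exact h3
  · intro h j hj i hij
    exact ⟨((l a)[i]'(hij.trans hj), (l a)[j]), ⟨List.getElem?_eq_getElem _, List.getElem?_eq_getElem _⟩,
      h i j _ hj hij⟩

end IsSig

/-! ### Delta predicates -/

/-- `Dl 𝓢 p`: both `p` and its complement are in `𝓢`. -/
def Dl (𝓢 : Set (ℕ → Prop)) (p : α → Prop) : Prop := Sg 𝓢 p ∧ Sg 𝓢 (fun a => ¬ p a)

theorem Dl.congr {p q : α → Prop} (h : Dl 𝓢 p) (e : ∀ a, p a ↔ q a) : Dl 𝓢 q := by
  have : p = q := by funext a; exact propext (e a)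
  rwa [← this]

theorem Dl.mono {𝓢 𝓣 : Set (ℕ → Prop)} (h𝓢 : 𝓢 ⊆ 𝓣) {p : α → Prop} (h : Dl 𝓢 p) : Dl 𝓣 p :=
  ⟨h𝓢 h.1, h𝓢 h.2⟩

theorem Dl.not {p : α → Prop} (h : Dl 𝓢 p) : Dl 𝓢 (fun a => ¬ p a) :=
  ⟨h.2, h.1.congr (by simp)⟩

namespace IsSig

variable (h𝓢 : IsSig 𝓢)
include h𝓢

theorem dprim {p : α → Prop} (hp : PrimrecPred p) : Dl 𝓢 p :=
  ⟨h𝓢.primPred hp, h𝓢.primPred hp.not⟩

theorem dcomp {p : β → Prop} {f : α → β} (hp : Dl 𝓢 p) (hf : Primrec f) :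
    Dl 𝓢 (fun a => p (f a)) :=
  ⟨h𝓢.comp hp.1 hf, h𝓢.comp (p := fun a => ¬ p a) hp.2 hf⟩

theorem dand {p q : α → Prop} (hp : Dl 𝓢 p) (hq : Dl 𝓢 q) : Dl 𝓢 (fun a => p a ∧ q a) :=
  ⟨h𝓢.and' hp.1 hq.1, (h𝓢.or' hp.2 hq.2).congr (by intro a; tauto)⟩

theorem dor {p q : α → Prop} (hp : Dl 𝓢 p) (hq : Dl 𝓢 q) : Dl 𝓢 (fun a => p a ∨ q a) :=
  ⟨h𝓢.or' hp.1 hq.1, (h𝓢.and' hp.2 hq.2).congr (by intro a; tauto)⟩

theorem dimp {p q : α → Prop} (hp : Dl 𝓢 p) (hq : Dl 𝓢 q) : Dl 𝓢 (fun a => p a → q a) :=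
  (h𝓢.dor hp.not hq).congr (by intro a; tauto)

theorem diff {p q : α → Prop} (hp : Dl 𝓢 p) (hq : Dl 𝓢 q) : Dl 𝓢 (fun a => p a ↔ q a) :=
  (h𝓢.dand (h𝓢.dimp hp hq) (h𝓢.dimp hq hp)).congr (by intro a; tauto)

theorem dball_lt {p : α → ℕ → Prop} {k : α → ℕ} (hp : Dl 𝓢 (fun x : α × ℕ => p x.1 x.2))
    (hk : Primrec k) : Dl 𝓢 (fun a => ∀ i < k a, p a i) :=
  ⟨h𝓢.ball_lt hp.1 hk, (h𝓢.ex_lt (p := fun a i => ¬ p a i) hp.2 hk).congr (by intro a; simp)⟩

theorem dex_lt {p : α → ℕ → Prop} {k : α → ℕ} (hp : Dl 𝓢 (fun x : α × ℕ => p x.1 x.2))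
    (hk : Primrec k) : Dl 𝓢 (fun a => ∃ i < k a, p a i) :=
  ⟨h𝓢.ex_lt hp.1 hk, (h𝓢.ball_lt (p := fun a i => ¬ p a i) hp.2 hk).congr (by intro a; simp)⟩

theorem dball_mem {p : α → β → Prop} {l : α → List β} (hp : Dl 𝓢 (fun x : α × β => p x.1 x.2))
    (hl : Primrec l) : Dl 𝓢 (fun a => ∀ i ∈ l a, p a i) :=
  ⟨h𝓢.ball_mem hp.1 hl, (h𝓢.ex_mem (p := fun a i => ¬ p a i) hp.2 hl).congr (by intro a; simp)⟩

theorem dex_mem {p : α → β → Prop} {l : α → List β} (hp : Dl 𝓢 (fun x : α × β => p x.1 x.2))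
    (hl : Primrec l) : Dl 𝓢 (fun a => ∃ i ∈ l a, p a i) :=
  ⟨h𝓢.ex_mem hp.1 hl, (h𝓢.ball_mem (p := fun a i => ¬ p a i) hp.2 hl).congr (by intro a; simp)⟩

end IsSig

end EXT88
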