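import Pool.Agent.Helper88.EXT.Cond

/-!
# Lemma 4: absorbing elements
-/

open Encodable

set_option linter.unusedSectionVars false

namespace EXT88

variable {U : ℕ → Prop} {R : ℕ → ℕ → Prop} {C D : ℕ → Prop} {S : Idl U}

/-- The hypotheses of Lemma 4. -/
structure L4Hyp (R : ℕ → ℕ → Prop) (C D : ℕ → Prop) (S : Idl U) : Prop where
  hR : SPO R
  hRS : Dl S.car (fun x : ℕ × ℕ => R x.1 x.2)
  hC : Dl S.car C
  hD : Sg S.car D
  hDC : ∀ x, D x → C x
  hdown : ∀ x y, C x → D y → R x y → D x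
  ha : ∀ x, D x → ∀ T : Idl U, S ≤ T → Sol R (fun y => C y ∧ R y x) T
  hb : ∀ T : Idl U, S ≤ T → ∀ Q : ℕ → Prop, Dl T.car Q → (∀ x, D x → Q x) →
      (∀ x, Q x → C x) → (∀ x y, C x → Q y → R x y → Q x) → Sol R (fun x => C x ∧ ¬ Q x) T

/-- Add a top element `x` to a solved order. -/
theorem add_top {T : Idl U} {l : ℕ → ℕ → Prop} (hl : SPO l)
    (dl : Dl T.car (fun x : ℕ × ℕ => l x.1 x.2)) {W V : ℕ → Prop} {x : ℕ}
    (hR : SPO R) (hVW : ∀ a, V a → a ≠ x → W a) (hWR : ∀ a, W a → R a x)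
    (ltot : ∀ a b, W a → W b → a ≠ b → l a b ∨ l b a)
    (lext : ∀ a b, W a → W b → R a b → l a b) (lcod : Coded U l W T.car) :
    ∃ l' : ℕ → ℕ → Prop, Dl T.car (fun x : ℕ × ℕ => l' x.1 x.2) ∧ SPO l' ∧
      (∀ a b, V a → V b → a ≠ b → l' a b ∨ l' b a) ∧ (∀ a b, V a → V b → R a b → l' a b) ∧
      Coded U l' V T.car := by
  classical
  let p : ℕ → ℕ := fun a => if a = x then 1 else 0
  have p1 : ∀ a, p a = 1 ↔ a = x := by intro a; by_cases h : a = x <;> simp [p, h]
  have p0 : ∀ a, p a = 0 ↔ a ≠ x := by intro a; by_cases h : a = x <;> simp [p, h]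
  have p2 : ∀ a, p a < 2 := by intro a; by_cases h : a = x <;> simp [p, h]
  refine ⟨lexRel p (fun _ => l), ?_, lexRel_spo (fun _ => hl), ?_, ?_, ?_⟩
  · apply dl_lexRel T.sig 2 p2 _ (fun _ => dl)
    intro c
    have hx : Dl T.car (fun a : ℕ => a = x) := T.sig.dprim (Primrec.eq.comp Primrec.id (Primrec.const x))
    rcases Nat.lt_or_ge c 2 with hc | hc
    · interval_cases c
      · exact hx.not.congr (fun a => (p0 a).symm)
      · exact hx.congr (fun a => (p1 a).symm)
    · have : ∀ a, ¬ p a = c := fun a => by have := p2 a; omega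
      exact ⟨T.sig.false'.congr (by simpa using this), T.sig.true'.congr (by simpa using this)⟩
  · intro a b ha hb hab
    by_cases hax : a = x
    · right; left
      rw [(p1 a).2 hax, (p0 b).2 (fun h => hab (hax.trans h.symm))]; omega
    · by_cases hbx : b = x
      · left; left; rw [(p1 b).2 hbx, (p0 a).2 hax]; omega
      · rcases ltot a b (hVW a ha hax) (hVW b hb hbx) hab with h | h
        · left; right; exact ⟨by rw [(p0 a).2 hax, (p0 b).2 hbx], h⟩
        · right; right; exact ⟨by rw [(p0 a).2 hax, (p0 b).2 hbx], h⟩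
  · intro a b ha hb hab
    by_cases hax : a = x
    · by_cases hbx : b = x
      · rw [hax, hbx] at hab; exact absurd hab (hR.irr _)
      · have := hWR b (hVW b hb hbx)
        rw [hax] at hab
        exact absurd (hR.tr _ _ _ hab this) (hR.irr _)
    · by_cases hbx : b = x
      · left; rw [(p1 b).2 hbx, (p0 a).2 hax]; omega
      · right; exact ⟨by rw [(p0 a).2 hax, (p0 b).2 hbx], lext a b (hVW a ha hax) (hVW b hb hbx) hab⟩
  · intro f hf
    obtain ⟨k, hk, hk2⟩ := lex_desc hf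
    apply adj_shift T.sig f k
    by_cases hc : f k = x
    · exfalso
      have h1 : f (k + 1) = x := (p1 _).1 (by rw [hk 1]; exact (p1 _).2 hc)
      have h0 := hk2.2 0
      have h0' : l (f (k + 1)) (f (k + 0)) := h0
      rw [h1, Nat.add_zero, hc] at h0'
      exact hl.irr _ h0'
    · apply lcod
      refine ⟨fun i => ?_, hk2.2⟩
      apply hVW _ (hk2.1 i).1
      have : p (f (k + i)) = 0 := by rw [hk i]; exact (p0 _).2 hc
      exact (p0 _).1 this

namespace FCond

theorem absorb_low (H : L4Hyp R C D S) (q : FCond R C D S) {x : ℕ} (hx : D x) :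
    ∃ r : FCond R C D S, q.le r ∧ r.A x ∧
      ∀ a b, C a → C b → r.O a b → q.O a b ∨ ((a = x ∨ R a x) ∧ q.Q b ∧ ¬ q.A b) := by
  have hCx := H.hDC x hx
  obtain ⟨T', hT', l, dl, hl, ltot, lext, lcod⟩ := H.ha x hx q.T q.hT
  let V : ℕ → Prop := fun a => C a ∧ ¬ q.A a ∧ (a = x ∨ R a x)
  have hVD : ∀ a, V a → D a := by
    rintro a ⟨hCa, _, rfl | h⟩
    · exact hx
    · exact H.hdown a x hCa hx h
  have dV : Dl T'.car V := by
    have hS : S ≤ T' := _root_.le_trans q.hT hT'
    apply T'.sig.dand (Dl.mono hS H.hC)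
    apply T'.sig.dand (Dl.mono hT' q.dA).not
    apply T'.sig.dor
    · exact T'.sig.dprim (Primrec.eq.comp Primrec.id (Primrec.const x))
    · exact T'.sig.dcomp (f := fun a : ℕ => (a, x)) (Dl.mono hS H.hRS)
        (Primrec.pair Primrec.id (Primrec.const x))
  obtain ⟨l', dl', hl', ltot', lext', lcod'⟩ := add_top (V := V) (x := x) hl dl H.hR
    (fun a ha hne => ⟨ha.1, ha.2.2.resolve_left hne⟩) (fun a ha => ha.2) ltot lext lcod
  obtain ⟨r, hqr, hA, hQ, hO, _⟩ := q.insert 1 (Or.inl rfl) T' hT' V dV (fun a ha => q.DQ a (hVD a ha))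
    (fun a ha => ha.2.1) l' dl' hl' ltot' lext' lcod'
    (fun _ => ⟨hVD, by
      rintro a b hCa hnA ⟨_, _, hb⟩ hab
      refine ⟨hCa, hnA, Or.inr ?_⟩
      rcases hb with rfl | hb
      · exact hab
      · exact H.hR.tr _ _ _ hab hb⟩)
    (fun h => by omega)
  refine ⟨r, hqr, ?_, ?_⟩
  · rw [hA]
    by_cases h : q.A x
    · exact Or.inl h
    · exact Or.inr ⟨rfl, hCx, h, Or.inl rfl⟩
  · intro a b ha hb hab
    rcases hO rfl a b ha hb hab with h | ⟨h1, h2, h3⟩
    · exact Or.inl h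
    · exact Or.inr ⟨h1.2.2, h2, h3⟩

theorem absorb_high (H : L4Hyp R C D S) (q : FCond R C D S) {x : ℕ} (hCx : C x) (hx : ¬ D x) :
    ∃ r : FCond R C D S, q.le r ∧ ¬ r.Q x ∧
      ∀ a b, C a → C b → r.O a b → q.O a b ∨ ((b = x ∨ R x b) ∧ q.Q a ∧ ¬ q.A a) := by
  let Q' : ℕ → Prop := fun a => q.Q a ∧ ¬ (a = x ∨ R x a)
  have dUp : Dl q.T.car (fun a : ℕ => a = x ∨ R x a) := by
    apply q.T.sig.dor
    · exact q.T.sig.dprim (Primrec.eq.comp Primrec.id (Primrec.const x))
    · exact q.T.sig.dcomp (f := fun a : ℕ => (x, a)) (Dl.mono q.hT H.hRS)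
        (Primrec.pair (Primrec.const x) Primrec.id)
  have dQ' : Dl q.T.car Q' := q.T.sig.dand q.dQ dUp.not
  have hDQ' : ∀ a, D a → Q' a := by
    intro a ha
    refine ⟨q.DQ a ha, ?_⟩
    rintro (rfl | h)
    · exact hx ha
    · exact hx (H.hdown x a hCx ha h)
  obtain ⟨T', hT', l, dl, hl, ltot, lext, lcod⟩ := H.hb q.T q.hT Q' dQ' hDQ'
    (fun a ha => q.QC a ha.1) (by
      rintro a b hCa ⟨hb, hb'⟩ hab
      refine ⟨q.Qdown a b hCa hb hab, ?_⟩
      rintro (rfl | h)
      · exact hb' (Or.inr hab)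
      · exact hb' (Or.inr (H.hR.tr _ _ _ h hab)))
  let V : ℕ → Prop := fun a => q.Q a ∧ (a = x ∨ R x a)
  have hVD : ∀ a, V a → ¬ D a := fun a ha hDa => (hDQ' a hDa).2 ha.2
  have hVW : ∀ a, V a → C a ∧ ¬ Q' a := fun a ha => ⟨q.QC a ha.1, fun h => h.2 ha.2⟩
  obtain ⟨r, hqr, hA, hQ, _, hO⟩ := q.insert 3 (Or.inr rfl) T' hT' V
    (T'.sig.dand (Dl.mono hT' q.dQ) (Dl.mono hT' dUp)) (fun a ha => ha.1)
    (fun a ha hA => hVD a ha (q.AD a hA)) l dl hl
    (fun a b ha hb => ltot a b (hVW a ha) (hVW b hb))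
    (fun a b ha hb => lext a b (hVW a ha) (hVW b hb))
    (fun f hf => lcod f ⟨fun i => hVW _ (hf.1 i), hf.2⟩)
    (fun h => by omega)
    (fun _ => ⟨hVD, by
      rintro a b ⟨ha, ha'⟩ hb hab
      refine ⟨hb, Or.inr ?_⟩
      rcases ha' with rfl | ha'
      · exact hab
      · exact H.hR.tr _ _ _ ha' hab⟩)
  refine ⟨r, hqr, ?_, ?_⟩
  · rw [hQ]
    rintro ⟨h1, h2⟩
    exact h2 ⟨rfl, h1, Or.inl rfl⟩
  · intro a b ha hb hab
    rcases hO rfl a b ha hb hab with h | ⟨h1, h2, h3⟩
    · exact Or.inl h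
    · exact Or.inr ⟨h1.2, h2, h3⟩

/-- Every element of `C` can be absorbed. -/
theorem absorb (H : L4Hyp R C D S) (q : FCond R C D S) {x : ℕ} (hCx : C x) :
    ∃ r : FCond R C D S, q.le r ∧ (r.A x ∨ ¬ r.Q x) := by
  by_cases hx : D x
  · obtain ⟨r, h1, h2, _⟩ := q.absorb_low H hx
    exact ⟨r, h1, Or.inl h2⟩
  · obtain ⟨r, h1, h2, _⟩ := q.absorb_high H hCx hx
    exact ⟨r, h1, Or.inr h2⟩

open Classical in
/-- A finite sequence compatible with the condition can be made increasing. -/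
theorem absorb_seq (H : L4Hyp R C D S) {n : ℕ} (t : Fin n → ℕ) (htC : ∀ i, C (t i)) :
    ∀ (m : ℕ) (q : FCond R C D S), (Finset.univ.filter fun i => q.Q (t i) ∧ ¬ q.A (t i)).card = m →
      (∀ i j, i < j → t i ≠ t j ∧ ¬ q.O (t j) (t i) ∧
        ¬ ((q.Q (t i) ∧ ¬ q.A (t i)) ∧ ¬ D (t i) ∧ (q.Q (t j) ∧ ¬ q.A (t j)) ∧ D (t j))) →
      ∃ r : FCond R C D S, q.le r ∧ ∀ i j, i < j → r.O (t i) (t j) := by
  intro m
  induction m using Nat.strong_induction_on with
  | _ m ih =>
    intro q hm hq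
    by_cases hex : ∃ i, (q.Q (t i) ∧ ¬ q.A (t i)) ∧ D (t i)
    · -- absorb the first such element from below
      obtain ⟨i₀, hi₀, hmin⟩ : ∃ i, ((q.Q (t i) ∧ ¬ q.A (t i)) ∧ D (t i)) ∧
          ∀ j, ((q.Q (t j) ∧ ¬ q.A (t j)) ∧ D (t j)) → i ≤ j := by
        obtain ⟨i, hi, hmin⟩ := WellFounded.has_min (wellFounded_lt (α := Fin n))
          {i | (q.Q (t i) ∧ ¬ q.A (t i)) ∧ D (t i)} hex
        exact ⟨i, hi, fun j hj => not_lt.1 (hmin j hj)⟩
      obtain ⟨r, hqr, hrA, hrO⟩ := q.absorb_low H hi₀.2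
      have hblock : ∀ j, (t j = t i₀ ∨ R (t j) (t i₀)) → ¬ q.A (t j) → j = i₀ := by
        rintro j (h | h) hA
        · rcases lt_trichotomy j i₀ with h' | h' | h'
          · exact absurd h (hq _ _ h').1
          · exact h'
          · exact absurd h.symm (hq _ _ h').1
        · have hDj : D (t j) := H.hdown _ _ (htC j) hi₀.2 h
          have hle := hmin j ⟨⟨q.DQ _ hDj, hA⟩, hDj⟩
          rcases lt_or_eq_of_le hle with h' | h'
          · exact absurd (q.ext _ _ (htC _) (htC _) h) (hq _ _ h').2.1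
          · exact h'.symm
      have hsub : (Finset.univ.filter fun i => r.Q (t i) ∧ ¬ r.A (t i)) ⊂
          (Finset.univ.filter fun i => q.Q (t i) ∧ ¬ q.A (t i)) := by
        rw [Finset.ssubset_iff_of_subset]
        · exact ⟨i₀, by simpa using hi₀.1, by simp [hrA]⟩
        · intro i hi
          simp only [Finset.mem_filter, Finset.mem_univ, true_and] at hi ⊢
          exact ⟨hqr.Q _ hi.1, fun h => hi.2 (hqr.A _ h)⟩
      obtain ⟨s, hrs, hs⟩ := ih _ (hm ▸ Finset.card_lt_card hsub) r rfl (by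
        intro i j hij
        obtain ⟨h1, h2, h3⟩ := hq i j hij
        refine ⟨h1, ?_, ?_⟩
        · intro h
          rcases hrO _ _ (htC _) (htC _) h with h' | ⟨h', hQi, hAi⟩
          · exact h2 h'
          · by_cases hAj : q.A (t j)
            · exact h2 (q.low _ _ hAj (htC _) hAi)
            · have hj := hblock j h' hAj
              subst hj
              apply h3
              refine ⟨⟨hQi, hAi⟩, ?_, hi₀.1, hi₀.2⟩
              intro hDi
              exact absurd (hmin i ⟨⟨hQi, hAi⟩, hDi⟩) (not_le.2 hij)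
        · rintro ⟨h4, h5, h6, h7⟩
          exact h3 ⟨⟨hqr.Q _ h4.1, fun h => h4.2 (hqr.A _ h)⟩, h5,
            ⟨hqr.Q _ h6.1, fun h => h6.2 (hqr.A _ h)⟩, h7⟩)
      exact ⟨s, FCond.le_trans hqr hrs, hs⟩
    · by_cases hex2 : ∃ i, (q.Q (t i) ∧ ¬ q.A (t i))
      · -- absorb the last such element from above
        obtain ⟨i₀, hi₀, hmax⟩ : ∃ i, (q.Q (t i) ∧ ¬ q.A (t i)) ∧
            ∀ j, (q.Q (t j) ∧ ¬ q.A (t j)) → j ≤ i := by
          obtain ⟨i, hi, hmax⟩ := WellFounded.has_min (wellFounded_gt (α := Fin n))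
            {i | (q.Q (t i) ∧ ¬ q.A (t i))} hex2
          exact ⟨i, hi, fun j hj => not_lt.1 (hmax j hj)⟩
        have hnD : ¬ D (t i₀) := fun h => hex ⟨i₀, hi₀, h⟩
        obtain ⟨r, hqr, hrQ, hrO⟩ := q.absorb_high H (htC i₀) hnD
        have hblock : ∀ j, (t j = t i₀ ∨ R (t i₀) (t j)) → q.Q (t j) → j = i₀ := by
          rintro j (h | h) hQ
          · rcases lt_trichotomy j i₀ with h' | h' | h'
            · exact absurd h (hq _ _ h').1
            · exact h'
            · exact absurd h.symm (hq _ _ h').1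
          · have hAj : ¬ q.A (t j) := fun hA => hi₀.2 (q.Adown _ _ (htC _) hA h)
            have hle := hmax j ⟨hQ, hAj⟩
            rcases lt_or_eq_of_le hle with h' | h'
            · exact absurd (q.ext _ _ (htC _) (htC _) h) (hq _ _ h').2.1
            · exact h'
        have hsub : (Finset.univ.filter fun i => r.Q (t i) ∧ ¬ r.A (t i)) ⊂
            (Finset.univ.filter fun i => q.Q (t i) ∧ ¬ q.A (t i)) := by
          rw [Finset.ssubset_iff_of_subset]
          · exact ⟨i₀, by simpa using hi₀, by simp [hrQ]⟩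
          · intro i hi
            simp only [Finset.mem_filter, Finset.mem_univ, true_and] at hi ⊢
            exact ⟨hqr.Q _ hi.1, fun h => hi.2 (hqr.A _ h)⟩
        obtain ⟨s, hrs, hs⟩ := ih _ (hm ▸ Finset.card_lt_card hsub) r rfl (by
          intro i j hij
          obtain ⟨h1, h2, h3⟩ := hq i j hij
          refine ⟨h1, ?_, ?_⟩
          · intro h
            rcases hrO _ _ (htC _) (htC _) h with h' | ⟨h', hQj, hAj⟩
            · exact h2 h'
            · by_cases hQi : q.Q (t i)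
              · have hi := hblock i h' hQi
                subst hi
                exact absurd (hmax j ⟨hQj, hAj⟩) (not_le.2 hij)
              · exact h2 (q.high _ _ hQj (htC _) hQi)
          · rintro ⟨h4, h5, h6, h7⟩
            exact h3 ⟨⟨hqr.Q _ h4.1, fun h => h4.2 (hqr.A _ h)⟩, h5,
              ⟨hqr.Q _ h6.1, fun h => h6.2 (hqr.A _ h)⟩, h7⟩)
        exact ⟨s, FCond.le_trans hqr hrs, hs⟩
      · -- everything is already decided
        refine ⟨q, q.le_refl, ?_⟩
        intro i j hij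
        obtain ⟨h1, h2, _⟩ := hq i j hij
        have hdec : ∀ k, q.A (t k) ∨ ¬ q.Q (t k) := by
          intro k
          by_contra h
          push Not at h
          exact hex2 ⟨k, h.2, h.1⟩
        rcases hdec i with hi | hi
        · by_cases hj : q.A (t j)
          · exact (q.totA _ _ hi hj h1).resolve_right h2
          · exact q.low _ _ hi (htC _) hj
        · rcases hdec j with hj | hj
          · exfalso
            apply h2
            exact q.low _ _ hj (htC _) (fun h => hi (q.DQ _ (q.AD _ h)))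
          · exact (q.totN _ _ (htC _) hi (htC _) hj h1).resolve_right h2

end FCond

end EXT88
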