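import Pool.Agent.Helper88.EXT.Sig

/-!
# Adjoining a function to a Sigma class
-/

open Encodable

set_option linter.unusedSectionVars false

namespace EXT88

variable {𝓢 𝓣 : Set (ℕ → Prop)} {α β γ δ : Type} [Primcodable α] [Primcodable β] [Primcodable γ]
  [Primcodable δ]

/-- The initial segment of length `s` of `Y`. -/
def pre (Y : ℕ → β) (s : ℕ) : List β := (List.range s).map Y

@[simp] theorem pre_length (Y : ℕ → β) (s : ℕ) : (pre Y s).length = s := by simp [pre]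

theorem pre_getElem? (Y : ℕ → β) (s i : ℕ) : (pre Y s)[i]? = if i < s then some (Y i) else none := by
  by_cases h : i < s
  · simp [pre, h]
  · simp [pre, h]

theorem pre_take (Y : ℕ → β) {s t : ℕ} (h : t ≤ s) : (pre Y s).take t = pre Y t := by
  apply List.ext_getElem?
  intro i
  rw [List.getElem?_take, pre_getElem?, pre_getElem?]
  split_ifs <;> first | rfl | omega

theorem pre_succ (Y : ℕ → β) (s : ℕ) : pre Y (s + 1) = pre Y s ++ [Y s] := by
  simp [pre, List.range_succ]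

/-- Characterisation of the initial segments of `Y`. -/
theorem eq_pre_iff (Y : ℕ → β) (l : List β) :
    l = pre Y l.length ↔ ∀ i < l.length, l[i]? = some (Y i) := by
  constructor
  · intro h i hi
    rw [h, pre_getElem?]
    simp [hi]
  · intro h
    apply List.ext_getElem?
    intro i
    rw [pre_getElem?]
    split_ifs with hi
    · exact h i hi
    · rw [List.getElem?_eq_none_iff]; omega

/-- The predicates enumerated by members of `𝓢` relative to `Y`. -/
def Adj (𝓢 : Set (ℕ → Prop)) (Y : ℕ → β) : Set (ℕ → Prop) :=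
  {A | ∃ B : List β × ℕ → Prop, Sg 𝓢 B ∧ ∀ n, A n ↔ ∃ s, B (pre Y s, n)}

theorem Adj.mono (h : 𝓢 ⊆ 𝓣) (Y : ℕ → β) : Adj 𝓢 Y ⊆ Adj 𝓣 Y := by
  rintro A ⟨B, hB, h'⟩
  exact ⟨B, Sg.mono h hB, h'⟩

/-- Monotonisation of an enumeration operator. -/
theorem monot (h𝓢 : IsSig 𝓢) {B : List β × α → Prop} (hB : Sg 𝓢 B) :
    ∃ B' : List β × α → Prop, Sg 𝓢 B' ∧ (∀ (Y : ℕ → β) n, (∃ s, B (pre Y s, n)) ↔ ∃ s, B' (pre Y s, n)) ∧
      ∀ (Y : ℕ → β) n s t, s ≤ t → B' (pre Y s, n) → B' (pre Y t, n) := by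
  refine ⟨fun x => ∃ k, B (x.1.take k, x.2), ?_, ?_, ?_⟩
  · apply h𝓢.ex' (p := fun (x : List β × α) (k : ℕ) => B (x.1.take k, x.2))
    apply h𝓢.comp (f := fun x : (List β × α) × ℕ => (x.1.1.take x.2, x.1.2)) hB
    exact Primrec.pair (Primrec.list_take.comp Primrec.snd (Primrec.fst.comp Primrec.fst))
      (Primrec.snd.comp Primrec.fst)
  · intro Y n
    constructor
    · rintro ⟨s, hs⟩
      refine ⟨s, s, ?_⟩
      simpa using (by rw [pre_take Y le_rfl]; exact hs : B ((pre Y s).take s, n))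
    · rintro ⟨s, k, hk⟩
      rcases Nat.le_total k s with h | h
      · rw [pre_take Y h] at hk; exact ⟨k, hk⟩
      · rw [List.take_of_length_le (by simpa using h)] at hk; exact ⟨s, hk⟩
  · rintro Y n s t hst ⟨k, hk⟩
    refine ⟨min k s, ?_⟩
    simp only at hk ⊢
    rw [pre_take Y (le_trans (min_le_right _ _) hst)]
    rcases Nat.le_total k s with h | h
    · rw [pre_take Y h] at hk; rwa [min_eq_left h]
    · rw [List.take_of_length_le (by simpa using h)] at hk; rwa [min_eq_right h]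

/-- Typed membership in `Adj`. -/
theorem sg_adj (h𝓢 : IsSig 𝓢) {Y : ℕ → β} {p : α → Prop} :
    Sg (Adj 𝓢 Y) p ↔ ∃ B : List β × α → Prop, Sg 𝓢 B ∧ ∀ a, p a ↔ ∃ s, B (pre Y s, a) := by
  constructor
  · rintro ⟨B, hB, h⟩
    refine ⟨fun x => B (x.1, encode x.2), ?_, ?_⟩
    · exact h𝓢.comp hB (Primrec.pair Primrec.fst (Primrec.encode.comp Primrec.snd))
    · intro a
      have := h (encode a)
      simp only [encodek, Option.some.injEq, exists_eq_left'] at this
      exact this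
  · rintro ⟨B, hB, h⟩
    refine ⟨fun x => ∃ a : α, (decode x.2 : Option α) = some a ∧ B (x.1, a), ?_, ?_⟩
    · apply h𝓢.ex' (p := fun (x : List β × ℕ) (a : α) => (decode x.2 : Option α) = some a ∧ B (x.1, a))
      apply h𝓢.and'
      · apply h𝓢.primPred
        exact Primrec.eq.comp (Primrec.decode.comp (Primrec.snd.comp Primrec.fst))
          (Primrec.option_some.comp Primrec.snd)
      · exact h𝓢.comp (f := fun x : (List β × ℕ) × α => (x.1.1, x.2)) hB
          (Primrec.pair (Primrec.fst.comp Primrec.fst) Primrec.snd)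
    · intro n
      constructor
      · rintro ⟨a, ha, hp⟩
        obtain ⟨s, hs⟩ := (h a).1 hp
        exact ⟨s, a, ha, hs⟩
      · rintro ⟨s, a, ha, hs⟩
        exact ⟨a, ha, (h a).2 ⟨s, hs⟩⟩

theorem subset_adj (h𝓢 : IsSig 𝓢) (Y : ℕ → β) : 𝓢 ⊆ Adj 𝓢 Y := by
  intro A hA
  refine ⟨fun x => A x.2, h𝓢.comp (sg_nat.2 hA) Primrec.snd, ?_⟩
  intro n; simp

theorem adj_isSig (h𝓢 : IsSig 𝓢) (Y : ℕ → β) : IsSig (Adj 𝓢 Y) := by
  constructor
  · intro p hp
    exact subset_adj h𝓢 Y (h𝓢.prim p hp)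
  · rintro p f ⟨B, hB, h⟩ hf
    exact ⟨fun x => B (x.1, f x.2), h𝓢.comp hB (Primrec.pair Primrec.fst (hf.comp Primrec.snd)),
      fun n => h _⟩
  · rintro p q ⟨B, hB, h⟩ ⟨B₂, hB₂, h₂⟩
    obtain ⟨C, hC, hBC, hmC⟩ := monot h𝓢 hB
    obtain ⟨C₂, hC₂, hBC₂, hmC₂⟩ := monot h𝓢 hB₂
    refine ⟨fun x => C x ∧ C₂ x, h𝓢.and' hC hC₂, ?_⟩
    intro n
    beta_reduce
    rw [h, h₂, hBC, hBC₂]
    constructor
    · rintro ⟨⟨s, hs⟩, t, ht⟩
      exact ⟨max s t, hmC _ _ _ _ (le_max_left _ _) hs, hmC₂ _ _ _ _ (le_max_right _ _) ht⟩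
    · rintro ⟨s, hs, ht⟩
      exact ⟨⟨s, hs⟩, s, ht⟩
  · rintro p q ⟨B, hB, h⟩ ⟨B₂, hB₂, h₂⟩
    refine ⟨fun x => B x ∨ B₂ x, h𝓢.or' hB hB₂, ?_⟩
    intro n
    beta_reduce
    rw [h, h₂, exists_or]
  · rintro p ⟨B, hB, h⟩
    refine ⟨fun x => ∃ m, B (x.1, Nat.pair x.2 m), ?_, ?_⟩
    · apply h𝓢.ex' (p := fun (x : List β × ℕ) (m : ℕ) => B (x.1, Nat.pair x.2 m))
      apply h𝓢.comp (f := fun x : (List β × ℕ) × ℕ => (x.1.1, Nat.pair x.1.2 x.2)) hB
      exact Primrec.pair (Primrec.fst.comp Primrec.fst)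
        (Primrec₂.natPair.comp (Primrec.snd.comp Primrec.fst) Primrec.snd)
    · intro n
      constructor
      · rintro ⟨m, hm⟩
        obtain ⟨s, hs⟩ := (h _).1 hm
        exact ⟨s, m, hs⟩
      · rintro ⟨s, m, hs⟩
        exact ⟨m, (h _).2 ⟨s, hs⟩⟩
  · rintro p ⟨B, hB, h⟩
    obtain ⟨C, hC, hBC, hmC⟩ := monot h𝓢 hB
    refine ⟨fun x => ∀ i < x.2, C (x.1, Nat.pair x.2 i), ?_, ?_⟩
    · apply h𝓢.ball_lt (p := fun (x : List β × ℕ) (i : ℕ) => C (x.1, Nat.pair x.2 i))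
        (k := fun x : List β × ℕ => x.2) _ Primrec.snd
      apply h𝓢.comp (f := fun x : (List β × ℕ) × ℕ => (x.1.1, Nat.pair x.1.2 x.2)) hC
      exact Primrec.pair (Primrec.fst.comp Primrec.fst)
        (Primrec₂.natPair.comp (Primrec.snd.comp Primrec.fst) Primrec.snd)
    · intro n
      have key : ∀ k, (∀ i < k, p (Nat.pair n i)) → ∃ s, ∀ i < k, C (pre Y s, Nat.pair n i) := by
        intro k
        induction k with
        | zero => intro _; exact ⟨0, by simp⟩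
        | succ k ih =>
          intro hk
          obtain ⟨s, hs⟩ := ih (fun i hi => hk i (by omega))
          obtain ⟨t, ht⟩ := (hBC _ _).1 ((h _).1 (hk k (by omega)))
          refine ⟨max s t, ?_⟩
          intro i hi
          rcases Nat.lt_succ_iff_lt_or_eq.1 hi with hi | rfl
          · exact hmC _ _ _ _ (le_max_left _ _) (hs i hi)
          · exact hmC _ _ _ _ (le_max_right _ _) ht
      constructor
      · intro hn
        exact key n hn
      · rintro ⟨s, hs⟩ i hi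
        exact (h _).2 ((hBC _ _).2 ⟨s, hs i hi⟩)

theorem graph_adj (h𝓢 : IsSig 𝓢) (Y : ℕ → β) : Dl (Adj 𝓢 Y) (fun x : ℕ × β => Y x.1 = x.2) := by
  constructor
  · rw [sg_adj h𝓢]
    refine ⟨fun x => x.1[x.2.1]? = some x.2.2, ?_, ?_⟩
    · apply h𝓢.primPred
      exact Primrec.eq.comp (Primrec.list_getElem?.comp Primrec.fst (Primrec.fst.comp Primrec.snd))
        (Primrec.option_some.comp (Primrec.snd.comp Primrec.snd))
    · rintro ⟨i, b⟩
      constructor
      · intro h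
        exact ⟨i + 1, by simp only [pre_getElem?]; simpa using h⟩
      · rintro ⟨s, hs⟩
        simp only [pre_getElem?] at hs
        split_ifs at hs with h1
        simpa using hs
  · rw [sg_adj h𝓢]
    refine ⟨fun x => x.2.1 < x.1.length ∧ ¬ (x.1[x.2.1]? = some x.2.2), ?_, ?_⟩
    · apply h𝓢.primPred
      exact (Primrec.nat_lt.comp (Primrec.fst.comp Primrec.snd) (Primrec.list_length.comp Primrec.fst)).and
        (Primrec.eq.comp (Primrec.list_getElem?.comp Primrec.fst (Primrec.fst.comp Primrec.snd))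
        (Primrec.option_some.comp (Primrec.snd.comp Primrec.snd))).not
    · rintro ⟨i, b⟩
      constructor
      · intro h
        exact ⟨i + 1, by simp, by simp only [pre_getElem?]; simpa using h⟩
      · rintro ⟨s, hs, hs'⟩
        simp only [pre_getElem?, pre_length] at hs hs'
        rw [if_pos hs] at hs'
        simpa using hs'

/-- Universality of `Adj`. -/
theorem adj_subset (h𝓣 : IsSig 𝓣) (h : 𝓢 ⊆ 𝓣) {Y : ℕ → β}
    (hY : Sg 𝓣 (fun x : ℕ × β => Y x.1 = x.2)) : Adj 𝓢 Y ⊆ 𝓣 := by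
  rintro A ⟨B, hB, hA⟩
  rw [← sg_nat]
  have h1 : Sg 𝓣 (fun x : ℕ × List β => ∀ i < x.2.length, ∃ b, x.2[i]? = some b ∧ Y i = b) := by
    apply h𝓣.ball_lt (p := fun (x : ℕ × List β) (i : ℕ) => ∃ b, x.2[i]? = some b ∧ Y i = b) _
      (Primrec.list_length.comp Primrec.snd)
    apply h𝓣.ex' (p := fun (x : (ℕ × List β) × ℕ) (b : β) => x.1.2[x.2]? = some b ∧ Y x.2 = b)
    apply h𝓣.and'
    · apply h𝓣.primPred
      exact Primrec.eq.comp (Primrec.list_getElem?.comp
        (Primrec.snd.comp (Primrec.fst.comp Primrec.fst)) (Primrec.snd.comp Primrec.fst))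
        (Primrec.option_some.comp Primrec.snd)
    · exact h𝓣.comp (f := fun x : ((ℕ × List β) × ℕ) × β => (x.1.2, x.2)) hY
        (Primrec.pair (Primrec.snd.comp Primrec.fst) Primrec.snd)
  have h2 : Sg 𝓣 (fun x : ℕ × List β => B (x.2, x.1) ∧
      ∀ i < x.2.length, ∃ b, x.2[i]? = some b ∧ Y i = b) := by
    apply h𝓣.and' _ h1
    exact h𝓣.comp (f := fun x : ℕ × List β => (x.2, x.1)) (Sg.mono h hB) (Primrec.pair Primrec.snd Primrec.fst)
  refine (h𝓣.ex' (p := fun (n : ℕ) (l : List β) => B (l, n) ∧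
      ∀ i < l.length, ∃ b, l[i]? = some b ∧ Y i = b) h2).congr ?_
  intro n
  rw [hA]
  constructor
  · rintro ⟨l, hl, h⟩
    refine ⟨l.length, ?_⟩
    have : l = pre Y l.length := by
      rw [eq_pre_iff]
      intro i hi
      obtain ⟨b, hb, rfl⟩ := h i hi
      exact hb
    rwa [← this]
  · rintro ⟨s, hs⟩
    refine ⟨pre Y s, hs, ?_⟩
    intro i hi
    rw [pre_length] at hi
    exact ⟨Y i, by rw [pre_getElem?, if_pos hi], rfl⟩

theorem adj_countable (h : 𝓢.Countable) (Y : ℕ → β) : (Adj 𝓢 Y).Countable := by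
  have : Adj 𝓢 Y ⊆ (fun P : ℕ → Prop => (fun n : ℕ => ∃ s, P (encode (pre Y s, n)))) '' 𝓢 := by
    rintro A ⟨B, hB, hA⟩
    refine ⟨_, hB, ?_⟩
    funext n
    simp only [encodek, Option.some.injEq, exists_eq_left']
    exact propext (hA n).symm
  exact (h.image _).mono this

/-- `Adj` only depends on the function up to a shift. -/
theorem adj_shift (h𝓢 : IsSig 𝓢) (Y : ℕ → β) (k : ℕ) : Adj 𝓢 (fun i => Y (k + i)) ⊆ Adj 𝓢 Y := by
  apply adj_subset (adj_isSig h𝓢 Y) (subset_adj h𝓢 Y)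
  exact (adj_isSig h𝓢 Y).comp (f := fun x : ℕ × β => (k + x.1, x.2)) (graph_adj h𝓢 Y).1
    (Primrec.pair (Primrec.nat_add.comp (Primrec.const k) Primrec.fst) Primrec.snd)

end EXT88
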