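import Pool.Agent.Helper88.EXT.Fin

/-!
# Lemma 4: the forcing conditions
-/

open Encodable

set_option linter.unusedSectionVars false

namespace EXT88

variable {U : ℕ → Prop} {R : ℕ → ℕ → Prop} {C D : ℕ → Prop} {S : Idl U}

/-- Forcing conditions for Lemma 4. -/
structure FCond (R : ℕ → ℕ → Prop) (C D : ℕ → Prop) (S : Idl U) where
  T : Idl U
  A : ℕ → Prop
  Q : ℕ → Prop
  O : ℕ → ℕ → Prop
  hT : S ≤ T
  dA : Dl T.car A
  dQ : Dl T.car Q
  dO : Dl T.car (fun x : ℕ × ℕ => O x.1 x.2)
  AD : ∀ x, A x → D x
  DQ : ∀ x, D x → Q x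
  QC : ∀ x, Q x → C x
  Adown : ∀ x y, C x → A y → R x y → A x
  Qdown : ∀ x y, C x → Q y → R x y → Q x
  spo : SPO O
  ext : ∀ x y, C x → C y → R x y → O x y
  mid : ∀ x y, Q x → ¬ A x → Q y → ¬ A y → O x y → R x y
  low : ∀ x y, A x → C y → ¬ A y → O x y
  high : ∀ x y, Q x → C y → ¬ Q y → O x y
  totA : ∀ x y, A x → A y → x ≠ y → O x y ∨ O y x
  totN : ∀ x y, C x → ¬ Q x → C y → ¬ Q y → x ≠ y → O x y ∨ O y x
  cod : Coded U O (fun x => A x ∨ (C x ∧ ¬ Q x)) T.car

namespace FCond

/-- Extension of conditions. -/
structure le (q r : FCond R C D S) : Prop where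
  T : q.T ≤ r.T
  A : ∀ x, q.A x → r.A x
  Q : ∀ x, r.Q x → q.Q x
  O : ∀ x y, C x → C y → q.O x y → r.O x y

theorem le_refl (q : FCond R C D S) : q.le q :=
  ⟨_root_.le_refl _, fun _ h => h, fun _ h => h, fun _ _ _ _ h => h⟩

theorem le_trans {q r s : FCond R C D S} (h1 : q.le r) (h2 : r.le s) : q.le s :=
  ⟨_root_.le_trans h1.T h2.T, fun _ h => h2.A _ (h1.A _ h), fun _ h => h1.Q _ (h2.Q _ h),
    fun _ _ hx hy h => h2.O _ _ hx hy (h1.O _ _ hx hy h)⟩

/-- The initial condition. -/
def init (S : Idl U) (hR : SPO R) (hRS : Dl S.car (fun x : ℕ × ℕ => R x.1 x.2)) (hC : Dl S.car C)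
    (hDC : ∀ x, D x → C x) : FCond R C D S where
  T := S
  A := fun _ => False
  Q := C
  O := R
  hT := _root_.le_refl S
  dA := ⟨S.sig.false', (S.sig.true').congr (by simp)⟩
  dQ := hC
  dO := hRS
  AD := fun _ h => h.elim
  DQ := hDC
  QC := fun _ h => h
  Adown := fun _ _ _ h _ => h
  Qdown := fun _ _ h _ _ => h
  spo := hR
  ext := fun _ _ _ _ h => h
  mid := fun _ _ _ _ _ _ h => h
  low := fun _ _ h _ _ => h.elim
  high := fun _ _ _ h h' => absurd h h'
  totA := fun _ _ h _ _ => h.elim
  totN := fun _ _ h h' _ _ _ => absurd h h'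
  cod := by
    intro f hf
    rcases hf.1 0 with h | ⟨h, h'⟩
    · exact h.elim
    · exact absurd h h'

open Classical in
/-- Insertion of a solved block `V` into the undecided middle part, either directly above `A`
(`v = 1`) or directly below the complement of `Q` (`v = 3`). -/
theorem insert (q : FCond R C D S) (v : ℕ) (hv : v = 1 ∨ v = 3) (T' : Idl U) (hT' : q.T ≤ T')
    (V : ℕ → Prop) (dV : Dl T'.car V) (hVQ : ∀ x, V x → q.Q x) (hVA : ∀ x, V x → ¬ q.A x)
    (l : ℕ → ℕ → Prop) (dl : Dl T'.car (fun x : ℕ × ℕ => l x.1 x.2)) (hl : SPO l)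
    (ltot : ∀ x y, V x → V y → x ≠ y → l x y ∨ l y x)
    (lext : ∀ x y, V x → V y → R x y → l x y) (lcod : Coded U l V T'.car)
    (hlow : v = 1 → (∀ x, V x → D x) ∧ ∀ x y, C x → ¬ q.A x → V y → R x y → V x)
    (hhigh : v = 3 → (∀ x, V x → ¬ D x) ∧ ∀ x y, V x → q.Q y → R x y → V y) :
    ∃ r : FCond R C D S, q.le r ∧ (∀ x, r.A x ↔ q.A x ∨ (v = 1 ∧ V x)) ∧
      (∀ x, r.Q x ↔ q.Q x ∧ ¬ (v = 3 ∧ V x)) ∧
      (v = 1 → ∀ x y, C x → C y → r.O x y → q.O x y ∨ (V x ∧ q.Q y ∧ ¬ q.A y)) ∧
      (v = 3 → ∀ x y, C x → C y → r.O x y → q.O x y ∨ (V y ∧ q.Q x ∧ ¬ q.A x)) := by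
  have hv' : v ≠ 0 ∧ v ≠ 2 ∧ v ≠ 4 ∧ v < 5 := by rcases hv with rfl | rfl <;> decide
  have hAQ : ∀ x, q.A x → q.Q x := fun x h => q.DQ x (q.AD x h)
  let p : ℕ → ℕ := fun x => if q.A x then 0 else if V x then v else if q.Q x then 2 else 4
  have pA : ∀ x, q.A x → p x = 0 := fun x h => if_pos h
  have pV : ∀ x, V x → p x = v := fun x h => by simp [p, hVA x h, h]
  have pM : ∀ x, q.Q x → ¬ q.A x → ¬ V x → p x = 2 := fun x h1 h2 h3 => by simp [p, h1, h2, h3]
  have pN : ∀ x, ¬ q.Q x → p x = 4 := fun x h => by
    have h1 : ¬ q.A x := fun h' => h (hAQ x h')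
    have h2 : ¬ V x := fun h' => h (hVQ x h')
    simp [p, h, h1, h2]
  have pA' : ∀ x, p x = 0 ↔ q.A x := by
    intro x
    refine ⟨fun h => ?_, pA x⟩
    by_contra h1
    by_cases h2 : V x
    · rw [pV x h2] at h; exact hv'.1 h
    · by_cases h3 : q.Q x
      · rw [pM x h3 h1 h2] at h; omega
      · rw [pN x h3] at h; omega
  have pV' : ∀ x, p x = v ↔ V x := by
    intro x
    refine ⟨fun h => ?_, pV x⟩
    by_contra h2
    by_cases h1 : q.A x
    · rw [pA x h1] at h; omega
    · by_cases h3 : q.Q x
      · rw [pM x h3 h1 h2] at h; omega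
      · rw [pN x h3] at h; omega
  have pN' : ∀ x, p x = 4 ↔ ¬ q.Q x := by
    intro x
    refine ⟨fun h => ?_, pN x⟩
    intro h3
    by_cases h1 : q.A x
    · rw [pA x h1] at h; omega
    · by_cases h2 : V x
      · rw [pV x h2] at h; omega
      · rw [pM x h3 h1 h2] at h; omega
  have pM' : ∀ x, p x = 2 ↔ q.Q x ∧ ¬ q.A x ∧ ¬ V x := by
    intro x
    refine ⟨fun h => ?_, fun h => pM x h.1 h.2.1 h.2.2⟩
    refine ⟨?_, ?_, ?_⟩
    · by_contra h3; rw [pN x h3] at h; omega
    · intro h1; rw [pA x h1] at h; omega
    · intro h2; rw [pV x h2] at h; omega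
  have p5 : ∀ x, p x < 5 := by
    intro x
    by_cases h1 : q.A x
    · rw [pA x h1]; omega
    · by_cases h2 : V x
      · rw [pV x h2]; omega
      · by_cases h3 : q.Q x
        · rw [pM x h3 h1 h2]; omega
        · rw [pN x h3]; omega
  have pcases : ∀ x, q.A x ∨ V x ∨ (q.Q x ∧ ¬ q.A x ∧ ¬ V x) ∨ ¬ q.Q x := by
    intro x; tauto
  let Rs : ℕ → ℕ → ℕ → Prop := fun c => if c = v then l else q.O
  have hRsv : Rs v = l := if_pos rfl
  have hRs' : ∀ c, c ≠ v → Rs c = q.O := fun c hc => if_neg hc
  have hRs0 : Rs 0 = q.O := hRs' 0 (Ne.symm hv'.1)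
  have hRs2 : Rs 2 = q.O := hRs' 2 (Ne.symm hv'.2.1)
  have hRs4 : Rs 4 = q.O := hRs' 4 (Ne.symm hv'.2.2.1)
  let O' : ℕ → ℕ → Prop := lexRel p Rs
  have hO'spo : SPO O' := by
    apply lexRel_spo
    intro c
    by_cases hc : c = v
    · rw [hc, hRsv]; exact hl
    · rw [hRs' c hc]; exact q.spo
  -- monotonicity of pieces along `q.O`
  have hpO : ∀ x y, C x → C y → q.O x y → p x < p y ∨ (p x = p y ∧ q.O x y ∧ (V x → V y → l x y)) := by
    intro x y hx hy h
    have hnyx : ¬ q.O y x := fun h' => q.spo.irr _ (q.spo.tr _ _ _ h h')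
    by_cases hAy : q.A y
    · by_cases hAx : q.A x
      · right; exact ⟨by rw [pA x hAx, pA y hAy], h, fun h1 => absurd hAx (hVA x h1)⟩
      · exact absurd (q.low y x hAy hx hAx) hnyx
    · by_cases hAx : q.A x
      · left
        rw [pA x hAx]
        rcases Nat.eq_zero_or_pos (p y) with h0 | h0
        · exact absurd ((pA' y).1 h0) hAy
        · exact h0
      · by_cases hQx : q.Q x
        · by_cases hQy : q.Q y
          · have hRxy := q.mid x y hQx hAx hQy hAy h
            by_cases hVx : V x
            · by_cases hVy : V y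
              · right; exact ⟨by rw [pV x hVx, pV y hVy], h, fun _ _ => lext x y hVx hVy hRxy⟩
              · rcases hv with hv1 | hv3
                · left; rw [pV x hVx, pM y hQy hAy hVy]; omega
                · exact absurd ((hhigh hv3).2 x y hVx hQy hRxy) hVy
            · by_cases hVy : V y
              · rcases hv with hv1 | hv3
                · exact absurd ((hlow hv1).2 x y hx hAx hVy hRxy) hVx
                · left; rw [pV y hVy, pM x hQx hAx hVx]; omega
              · right
                exact ⟨by rw [pM x hQx hAx hVx, pM y hQy hAy hVy], h, fun h1 => absurd h1 hVx⟩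
          · left
            rw [pN y hQy]
            have h4 : p x ≠ 4 := fun h4 => (pN' x).1 h4 hQx
            have := p5 x
            omega
        · by_cases hQy : q.Q y
          · exact absurd (q.high y x hQy hx hQx) hnyx
          · right; exact ⟨by rw [pN x hQx, pN y hQy], h, fun h1 => absurd (hVQ x h1) hQx⟩
  have hmono : ∀ x y, C x → C y → q.O x y → O' x y := by
    intro x y hx hy h
    rcases hpO x y hx hy h with h1 | ⟨h1, h2, h3⟩
    · exact Or.inl h1
    · refine Or.inr ⟨h1, ?_⟩
      by_cases hc : p x = v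
      · rw [hc, hRsv]
        exact h3 ((pV' x).1 hc) ((pV' y).1 (h1 ▸ hc))
      · rw [hRs' _ hc]; exact h2
  have hAx' : ∀ x, (q.A x ∨ (v = 1 ∧ V x)) ↔ p x < 2 := by
    intro x
    rcases pcases x with h | h | h | h
    · rw [pA x h]; simp [h]
    · rw [pV x h]
      have := hVA x h
      rcases hv with rfl | rfl <;> simp [h, this]
    · rw [pM x h.1 h.2.1 h.2.2]; simp [h.2.1, h.2.2]
    · rw [pN x h]
      have h1 : ¬ q.A x := fun h' => h (hAQ x h')
      have h2 : ¬ V x := fun h' => h (hVQ x h')
      simp [h1, h2]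
  have hQx' : ∀ x, (q.Q x ∧ ¬ (v = 3 ∧ V x)) ↔ p x < 3 := by
    intro x
    rcases pcases x with h | h | h | h
    · rw [pA x h]
      have h2 : ¬ V x := fun h' => hVA x h' h
      simp [hAQ x h, h2]
    · rw [pV x h]
      have := hVQ x h
      rcases hv with rfl | rfl <;> simp [h, this]
    · rw [pM x h.1 h.2.1 h.2.2]; simp [h.1, h.2.2]
    · rw [pN x h]; simp [h]
  have hMid' : ∀ x, ((q.Q x ∧ ¬ (v = 3 ∧ V x)) ∧ ¬ (q.A x ∨ (v = 1 ∧ V x))) ↔ p x = 2 := by
    intro x
    rw [hAx', hQx']; omega
  let r : FCond R C D S :=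
    { T := T'
      A := fun x => q.A x ∨ (v = 1 ∧ V x)
      Q := fun x => q.Q x ∧ ¬ (v = 3 ∧ V x)
      O := O'
      hT := _root_.le_trans q.hT hT'
      dA := by
        by_cases h : v = 1
        · exact (T'.sig.dor (Dl.mono hT' q.dA) dV).congr (by simp [h])
        · exact (Dl.mono hT' q.dA).congr (by simp [h])
      dQ := by
        by_cases h : v = 3
        · exact (T'.sig.dand (Dl.mono hT' q.dQ) dV.not).congr (by simp [h])
        · exact (Dl.mono hT' q.dQ).congr (by simp [h])
      dO := by
        apply dl_lexRel T'.sig 5 p5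
        · intro c
          rcases Nat.lt_or_ge c 5 with hc | hc
          · by_cases hcv : c = v
            · subst hcv; exact dV.congr (fun x => (pV' x).symm)
            · by_cases hc0 : c = 0
              · subst hc0; exact (Dl.mono hT' q.dA).congr (fun x => (pA' x).symm)
              · by_cases hc2 : c = 2
                · subst hc2
                  exact (T'.sig.dand (Dl.mono hT' q.dQ) (T'.sig.dand (Dl.mono hT' q.dA).not dV.not)).congr
                    (fun x => (pM' x).symm)
                · by_cases hc4 : c = 4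
                  · subst hc4; exact (Dl.mono hT' q.dQ).not.congr (fun x => (pN' x).symm)
                  · have : ∀ x, ¬ p x = c := by
                      intro x
                      rcases pcases x with h | h | h | h
                      · rw [pA x h]; omega
                      · rw [pV x h]; omega
                      · rw [pM x h.1 h.2.1 h.2.2]; omega
                      · rw [pN x h]; omega
                    exact ⟨T'.sig.false'.congr (by simpa using this), T'.sig.true'.congr (by simpa using this)⟩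
          · have : ∀ x, ¬ p x = c := fun x => by have := p5 x; omega
            exact ⟨T'.sig.false'.congr (by simpa using this), T'.sig.true'.congr (by simpa using this)⟩
        · intro c
          by_cases hc : c = v
          · rw [hc, hRsv]; exact dl
          · rw [hRs' c hc]; exact Dl.mono hT' q.dO
      AD := by
        rintro x (h | ⟨h, h'⟩)
        · exact q.AD x h
        · exact (hlow h).1 x h'
      DQ := by
        intro x h
        refine ⟨q.DQ x h, ?_⟩
        rintro ⟨h3, hV⟩
        exact (hhigh h3).1 x hV h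
      QC := fun x h => q.QC x h.1
      Adown := by
        rintro x y hx (h | ⟨h, h'⟩) hR
        · exact Or.inl (q.Adown x y hx h hR)
        · by_cases hA : q.A x
          · exact Or.inl hA
          · exact Or.inr ⟨h, (hlow h).2 x y hx hA h' hR⟩
      Qdown := by
        rintro x y hx ⟨h, h'⟩ hR
        refine ⟨q.Qdown x y hx h hR, ?_⟩
        rintro ⟨h3, hV⟩
        exact h' ⟨h3, (hhigh h3).2 x y hV h hR⟩
      spo := hO'spo
      ext := fun x y hx hy h => hmono x y hx hy (q.ext x y hx hy h)
      mid := by
        intro x y hQx hAx hQy hAy h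
        have hx := (hMid' x).1 ⟨hQx, hAx⟩
        have hy := (hMid' y).1 ⟨hQy, hAy⟩
        have hx2 := (pM' x).1 hx
        have hy2 := (pM' y).1 hy
        rcases h with h | ⟨_, h⟩
        · rw [hx, hy] at h; omega
        · rw [hx, hRs2] at h
          exact q.mid x y hx2.1 hx2.2.1 hy2.1 hy2.2.1 h
      low := by
        intro x y hAx hy hAy
        rw [hAx'] at hAx hAy
        by_cases hxy : p x < p y
        · exact Or.inl hxy
        · omega
      high := by
        intro x y hQx hy hQy
        rw [hQx'] at hQx hQy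
        exact Or.inl (by omega)
      totA := by
        intro x y hAx hAy hne
        rw [hAx'] at hAx hAy
        rcases lt_trichotomy (p x) (p y) with h | h | h
        · exact Or.inl (Or.inl h)
        · by_cases hpx : p x = 0
          · have hx := (pA' x).1 hpx
            have hy := (pA' y).1 (h ▸ hpx)
            rcases q.totA x y hx hy hne with h' | h'
            · left; right; refine ⟨h, ?_⟩; rw [hpx, hRs0]; exact h'
            · right; right; refine ⟨h.symm, ?_⟩; rw [← h, hpx, hRs0]; exact h'
          · have hpx1 : p x = v := by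
              rcases pcases x with h1 | h1 | h1 | h1
              · exact absurd (pA x h1) hpx
              · exact pV x h1
              · have := pM x h1.1 h1.2.1 h1.2.2; omega
              · have := pN x h1; omega
            have hx := (pV' x).1 hpx1
            have hy := (pV' y).1 (h ▸ hpx1)
            rcases ltot x y hx hy hne with h' | h'
            · left; right; refine ⟨h, ?_⟩; rw [hpx1, hRsv]; exact h'
            · right; right; refine ⟨h.symm, ?_⟩; rw [← h, hpx1, hRsv]; exact h'
        · exact Or.inr (Or.inl h)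
      totN := by
        intro x y hCx hQx hCy hQy hne
        rw [hQx'] at hQx hQy
        rcases lt_trichotomy (p x) (p y) with h | h | h
        · exact Or.inl (Or.inl h)
        · by_cases hpx : p x = 4
          · have hx := (pN' x).1 hpx
            have hy := (pN' y).1 (h ▸ hpx)
            rcases q.totN x y hCx hx hCy hy hne with h' | h'
            · left; right; refine ⟨h, ?_⟩; rw [hpx, hRs4]; exact h'
            · right; right; refine ⟨h.symm, ?_⟩; rw [← h, hpx, hRs4]; exact h'
          · have hpx1 : p x = v := by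
              rcases pcases x with h1 | h1 | h1 | h1
              · have := pA x h1; omega
              · exact pV x h1
              · have := pM x h1.1 h1.2.1 h1.2.2; omega
              · exact absurd (pN x h1) hpx
            have hx := (pV' x).1 hpx1
            have hy := (pV' y).1 (h ▸ hpx1)
            rcases ltot x y hx hy hne with h' | h'
            · left; right; refine ⟨h, ?_⟩; rw [hpx1, hRsv]; exact h'
            · right; right; refine ⟨h.symm, ?_⟩; rw [← h, hpx1, hRsv]; exact h'
        · exact Or.inr (Or.inl h)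
      cod := by
        intro f hf
        obtain ⟨k, hk, hk2⟩ := lex_desc hf
        apply adj_shift T'.sig f k
        by_cases hc : p (f k) = v
        · apply lcod
          rw [hc, hRsv] at hk2
          refine ⟨fun i => ?_, hk2.2⟩
          exact (pV' _).1 (hk2.1 i).2
        · rw [hRs' _ hc] at hk2
          have h1 : Desc q.O (fun x => q.A x ∨ (C x ∧ ¬ q.Q x)) (fun i => f (k + i)) := by
            refine ⟨fun i => ?_, hk2.2⟩
            obtain ⟨h1, h2⟩ := hk2.1 i
            have h3 : ¬ V (f (k + i)) := fun h' => hc (by rw [← h2]; exact pV _ h')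
            rcases h1 with (h1 | h1) | ⟨h1, h1'⟩
            · exact Or.inl h1
            · exact absurd h1.2 h3
            · refine Or.inr ⟨h1, fun hq => h1' ⟨hq, fun hh => h3 hh.2⟩⟩
          exact Adj.mono hT' _ (q.cod _ h1) }
  refine ⟨r, ⟨hT', fun x h => Or.inl h, fun x h => h.1, hmono⟩, fun x => Iff.rfl, fun x => Iff.rfl,
    ?_, ?_⟩
  · intro hv1 x y hx hy h
    by_contra hcon
    push Not at hcon
    obtain ⟨hno, hcon⟩ := hcon
    -- `x`, `y` are `q.O`-incomparable in this direction
    have hAQ' : ∀ z, p z = 1 → V z := fun z hz => (pV' z).1 (hv1 ▸ hz)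
    rcases h with h | ⟨h, h'⟩
    · -- p x < p y
      rcases pcases x with h1 | h1 | h1 | h1
      · exact hno (q.low x y h1 hy (fun h2 => by rw [pA x h1, pA y h2] at h; omega))
      · by_cases hQy : q.Q y
        · have hAy := hcon h1 hQy
          rw [pA y hAy] at h; omega
        · exact hno (q.high x y (hVQ x h1) hy hQy)
      · have hpy : ¬ q.Q y := by
          intro hQy
          rw [pM x h1.1 h1.2.1 h1.2.2] at h
          have h4 : p y ≠ 4 := fun h4 => (pN' y).1 h4 hQy
          rcases pcases y with h2 | h2 | h2 | h2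
          · rw [pA y h2] at h; omega
          · rw [pV y h2] at h; omega
          · rw [pM y h2.1 h2.2.1 h2.2.2] at h; omega
          · exact h2 hQy
        exact hno (q.high x y h1.1 hy hpy)
      · rw [pN x h1] at h
        have := p5 y
        omega
    · by_cases hc : p x = v
      · have hVx := (pV' x).1 hc
        have hVy := (pV' y).1 (h ▸ hc)
        exact hVA y hVy (hcon hVx (hVQ y hVy))
      · rw [hRs' _ hc] at h'
        exact hno h'
  · intro hv3 x y hx hy h
    by_contra hcon
    push Not at hcon
    obtain ⟨hno, hcon⟩ := hcon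
    rcases h with h | ⟨h, h'⟩
    · rcases pcases x with h1 | h1 | h1 | h1
      · exact hno (q.low x y h1 hy (fun h2 => by rw [pA x h1, pA y h2] at h; omega))
      · have hpy : p y = 4 := by
          rw [pV x h1] at h
          have := p5 y
          omega
        exact hno (q.high x y (hVQ x h1) hy ((pN' y).1 hpy))
      · by_cases hVy : V y
        · exact h1.2.1 (hcon hVy h1.1)
        · have hpy : ¬ q.Q y := by
            intro hQy
            rw [pM x h1.1 h1.2.1 h1.2.2] at h
            rcases pcases y with h2 | h2 | h2 | h2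
            · rw [pA y h2] at h; omega
            · exact hVy h2
            · rw [pM y h2.1 h2.2.1 h2.2.2] at h; omega
            · exact h2 hQy
          exact hno (q.high x y h1.1 hy hpy)
      · rw [pN x h1] at h
        have := p5 y
        omega
    · by_cases hc : p x = v
      · have hVx := (pV' x).1 hc
        have hVy := (pV' y).1 (h ▸ hc)
        exact hVA x hVx (hcon hVy (hVQ x hVx))
      · rw [hRs' _ hc] at h'
        exact hno h'

end FCond

end EXT88
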