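import Pool.Agent.Helper88.EXT.Absorb
import Pool.Agent.Helper33.EXT.LemmaB

/-!
# Lemma 4: deciding one enumeration operator
-/

open Encodable

set_option linter.unusedSectionVars false

namespace EXT88

variable {U : ℕ → Prop} {R : ℕ → ℕ → Prop} {C D : ℕ → Prop} {S : Idl U}

/-- The linear orders compatible with a condition. -/
structure Compat (L : ℕ → ℕ → Prop) (r : FCond R C D S) : Prop where
  spo : SPO L
  sub : ∀ x y, L x y → C x ∧ C y
  tot : ∀ x y, C x → C y → x ≠ y → L x y ∨ L y x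
  ext : ∀ x y, C x → C y → r.O x y → L x y

theorem Compat.of_le {L : ℕ → ℕ → Prop} {q r : FCond R C D S} (h : q.le r) (hL : Compat L r) :
    Compat L q :=
  ⟨hL.spo, hL.sub, hL.tot, fun x y hx hy hO => hL.ext x y hx hy (h.O x y hx hy hO)⟩

/-- The condition `r` guarantees that the operator `B` does not enumerate `U`. -/
def Met (r : FCond R C D S) (B : List Bool × ℕ → Prop) : Prop :=
  (∃ m, U m ∧ ∀ L, Compat L r → ∀ s, ¬ B (pre (chi L) s, m)) ∨
  (∃ m, ¬ U m ∧ ∀ L, Compat L r → ∃ s, B (pre (chi L) s, m))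

theorem Met.of_le {q r : FCond R C D S} (h : q.le r) {B : List Bool × ℕ → Prop} (hq : Met q B) :
    Met r B := by
  rcases hq with ⟨m, hm, h'⟩ | ⟨m, hm, h'⟩
  · exact Or.inl ⟨m, hm, fun L hL => h' L (hL.of_le h)⟩
  · exact Or.inr ⟨m, hm, fun L hL => h' L (hL.of_le h)⟩

/-- The bracket: the string `g` is not a correct guess, or it allows `B` to enumerate `m`. -/
def Brk (q : FCond R C D S) (B : List Bool × ℕ → Prop) : List Bool × ℕ → Prop := fun x =>
  (∃ a : ℕ, x.1[a]? = some true ∧ D a) ∨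
  (∃ ab : ℕ × ℕ, (x.1[ab.1]? = some true ∧ x.1[ab.2]? = some false) ∧
    ((q.Q ab.1 ∧ ¬ q.A ab.1) ∧ (q.Q ab.2 ∧ ¬ q.A ab.2)) ∧ R ab.1 ab.2) ∨
  (∃ t : List ℕ, ∃ s : ℕ, (s ≤ x.1.length ∧ B (strT t s, x.2)) ∧
    ((∀ a ∈ t, C a ∧ a < x.1.length) ∧ (∀ a < x.1.length, C a → a ∈ t)) ∧
    t.Pairwise (fun a b => (a ≠ b ∧ ¬ q.O b a) ∧
      ¬ (((q.Q a ∧ ¬ q.A a) ∧ (q.Q b ∧ ¬ q.A b)) ∧ (x.1[a]? = some true ∧ x.1[b]? = some false))))

theorem sg_brk (H : L4Hyp R C D S) (q : FCond R C D S) {B : List Bool × ℕ → Prop}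
    (hB : Sg q.T.car B) : Sg q.T.car (Brk q B) := by
  have hs := q.T.sig
  have hC : Dl q.T.car C := Dl.mono q.hT H.hC
  have hR : Dl q.T.car (fun x : ℕ × ℕ => R x.1 x.2) := Dl.mono q.hT H.hRS
  have hD : Sg q.T.car D := Sg.mono q.hT H.hD
  have hM : Dl q.T.car (fun a => q.Q a ∧ ¬ q.A a) := hs.dand q.dQ q.dA.not
  unfold Brk
  apply hs.or'
  · apply hs.ex' (p := fun (x : List Bool × ℕ) (a : ℕ) => x.1[a]? = some true ∧ D a)
    apply hs.and'
    · apply hs.primPred
      exact Primrec.eq.comp (Primrec.list_getElem?.comp (Primrec.fst.comp Primrec.fst) Primrec.snd)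
        (Primrec.const (some true))
    · exact hs.comp (f := fun x : (List Bool × ℕ) × ℕ => x.2) hD Primrec.snd
  apply hs.or'
  · apply hs.ex' (p := fun (x : List Bool × ℕ) (ab : ℕ × ℕ) =>
      (x.1[ab.1]? = some true ∧ x.1[ab.2]? = some false) ∧
      ((q.Q ab.1 ∧ ¬ q.A ab.1) ∧ (q.Q ab.2 ∧ ¬ q.A ab.2)) ∧ R ab.1 ab.2)
    apply hs.and'
    · apply hs.primPred
      apply PrimrecPred.and
      · exact Primrec.eq.comp (Primrec.list_getElem?.comp (Primrec.fst.comp Primrec.fst)
          (Primrec.fst.comp Primrec.snd)) (Primrec.const (some true))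
      · exact Primrec.eq.comp (Primrec.list_getElem?.comp (Primrec.fst.comp Primrec.fst)
          (Primrec.snd.comp Primrec.snd)) (Primrec.const (some false))
    · have h1 : Dl q.T.car (fun ab : ℕ × ℕ =>
          ((q.Q ab.1 ∧ ¬ q.A ab.1) ∧ (q.Q ab.2 ∧ ¬ q.A ab.2)) ∧ R ab.1 ab.2) := by
        apply hs.dand _ hR
        exact hs.dand (hs.dcomp (p := fun a => q.Q a ∧ ¬ q.A a) hM Primrec.fst)
          (hs.dcomp (p := fun a => q.Q a ∧ ¬ q.A a) hM Primrec.snd)
      exact hs.comp (f := fun x : (List Bool × ℕ) × (ℕ × ℕ) => x.2) h1.1 Primrec.snd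
  · apply hs.ex' (p := fun (x : List Bool × ℕ) (t : List ℕ) =>
      ∃ s : ℕ, (s ≤ x.1.length ∧ B (strT t s, x.2)) ∧
      ((∀ a ∈ t, C a ∧ a < x.1.length) ∧ (∀ a < x.1.length, C a → a ∈ t)) ∧
      t.Pairwise (fun a b => (a ≠ b ∧ ¬ q.O b a) ∧
      ¬ (((q.Q a ∧ ¬ q.A a) ∧ (q.Q b ∧ ¬ q.A b)) ∧ (x.1[a]? = some true ∧ x.1[b]? = some false))))
    apply hs.ex' (p := fun (x : (List Bool × ℕ) × List ℕ) (s : ℕ) =>
      (s ≤ x.1.1.length ∧ B (strT x.2 s, x.1.2)) ∧
      ((∀ a ∈ x.2, C a ∧ a < x.1.1.length) ∧ (∀ a < x.1.1.length, C a → a ∈ x.2)) ∧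
      x.2.Pairwise (fun a b => (a ≠ b ∧ ¬ q.O b a) ∧
      ¬ (((q.Q a ∧ ¬ q.A a) ∧ (q.Q b ∧ ¬ q.A b)) ∧ (x.1.1[a]? = some true ∧ x.1.1[b]? = some false))))
    apply hs.and'
    · apply hs.and'
      · apply hs.primPred
        exact Primrec.nat_le.comp Primrec.snd
          (Primrec.list_length.comp (Primrec.fst.comp (Primrec.fst.comp Primrec.fst)))
      · apply hs.comp (f := fun x : ((List Bool × ℕ) × List ℕ) × ℕ => (strT x.1.2 x.2, x.1.1.2)) hB
        exact Primrec.pair (strT_primrec.comp (Primrec.pair (Primrec.snd.comp Primrec.fst) Primrec.snd))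
          (Primrec.snd.comp (Primrec.fst.comp Primrec.fst))
    · -- the remaining part does not depend on `s`
      have h1 : Sg q.T.car (fun x : (List Bool × ℕ) × List ℕ =>
          ((∀ a ∈ x.2, C a ∧ a < x.1.1.length) ∧ (∀ a < x.1.1.length, C a → a ∈ x.2)) ∧
          x.2.Pairwise (fun a b => (a ≠ b ∧ ¬ q.O b a) ∧
          ¬ (((q.Q a ∧ ¬ q.A a) ∧ (q.Q b ∧ ¬ q.A b)) ∧
            (x.1.1[a]? = some true ∧ x.1.1[b]? = some false)))) := by
        apply hs.and'
        · apply hs.and'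
          · apply hs.ball_mem (p := fun (x : (List Bool × ℕ) × List ℕ) (a : ℕ) =>
              C a ∧ a < x.1.1.length) _ Primrec.snd
            apply hs.and'
            · exact hs.comp (f := fun x : ((List Bool × ℕ) × List ℕ) × ℕ => x.2) hC.1 Primrec.snd
            · apply hs.primPred
              exact Primrec.nat_lt.comp Primrec.snd
                (Primrec.list_length.comp (Primrec.fst.comp (Primrec.fst.comp Primrec.fst)))
          · apply hs.ball_lt (p := fun (x : (List Bool × ℕ) × List ℕ) (a : ℕ) => C a → a ∈ x.2) _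
              (Primrec.list_length.comp (Primrec.fst.comp Primrec.fst))
            refine (hs.dimp (hs.dcomp (p := C)
              (f := fun x : ((List Bool × ℕ) × List ℕ) × ℕ => x.2) hC Primrec.snd)
              (hs.dprim (p := fun x : ((List Bool × ℕ) × List ℕ) × ℕ => x.2 ∈ x.1.2) ?_)).1
            refine (Primrec.nat_lt.comp (Primrec.list_idxOf.comp Primrec.snd (Primrec.snd.comp Primrec.fst))
              (Primrec.list_length.comp (Primrec.snd.comp Primrec.fst))).of_eq ?_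
            rintro ⟨⟨_, t⟩, a⟩
            exact List.idxOf_lt_length_iff
        · apply hs.pairwise (p := fun (x : (List Bool × ℕ) × List ℕ) (a b : ℕ) =>
            (a ≠ b ∧ ¬ q.O b a) ∧ ¬ (((q.Q a ∧ ¬ q.A a) ∧ (q.Q b ∧ ¬ q.A b)) ∧
            (x.1.1[a]? = some true ∧ x.1.1[b]? = some false))) _ Primrec.snd
          refine (hs.dand (hs.dand ?_ (Dl.not ?_)) (Dl.not (hs.dand (hs.dand ?_ ?_) (hs.dand ?_ ?_)))).1
          · apply hs.dprim
            exact (Primrec.eq.comp (Primrec.fst.comp Primrec.snd) (Primrec.snd.comp Primrec.snd)).not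
          · exact hs.dcomp (p := fun x : ℕ × ℕ => q.O x.1 x.2)
              (f := fun x : ((List Bool × ℕ) × List ℕ) × ℕ × ℕ => (x.2.2, x.2.1)) q.dO
              (Primrec.pair (Primrec.snd.comp Primrec.snd) (Primrec.fst.comp Primrec.snd))
          · exact hs.dcomp (p := fun a => q.Q a ∧ ¬ q.A a)
              (f := fun x : ((List Bool × ℕ) × List ℕ) × ℕ × ℕ => x.2.1) hM
              (Primrec.fst.comp Primrec.snd)
          · exact hs.dcomp (p := fun a => q.Q a ∧ ¬ q.A a)
              (f := fun x : ((List Bool × ℕ) × List ℕ) × ℕ × ℕ => x.2.2) hM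
              (Primrec.snd.comp Primrec.snd)
          · apply hs.dprim
            exact Primrec.eq.comp (Primrec.list_getElem?.comp
              (Primrec.fst.comp (Primrec.fst.comp Primrec.fst)) (Primrec.fst.comp Primrec.snd))
              (Primrec.const (some true))
          · apply hs.dprim
            exact Primrec.eq.comp (Primrec.list_getElem?.comp
              (Primrec.fst.comp (Primrec.fst.comp Primrec.fst)) (Primrec.snd.comp Primrec.snd))
              (Primrec.const (some false))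
      exact hs.comp (f := fun x : ((List Bool × ℕ) × List ℕ) × ℕ => x.1) h1 Primrec.fst

/-- Any operator can be decided by an extension. -/
theorem decide_op (H : L4Hyp R C D S) (q : FCond R C D S) {B : List Bool × ℕ → Prop}
    (hB : Sg q.T.car B) : ∃ r : FCond R C D S, q.le r ∧ Met r B := by
  classical
  have hs := q.T.sig
  have hE := sg_brk H q hB
  have hF : Sg q.T.car (fun m : ℕ => ∀ G : ℕ → Bool, ∃ s, Brk q B (pre G s, m)) := sg_nopath hs hE
  by_cases hcase : ∃ m, U m ∧ ∃ G : ℕ → Bool, ∀ s, ¬ Brk q B (pre G s, m)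
  · obtain ⟨m, hm, hG⟩ := hcase
    obtain ⟨G, hG, hGU⟩ := lemmaB q.T (fun g => Brk q B (g, m))
      (hs.comp (f := fun g : List Bool => (g, m)) hE (Primrec.pair Primrec.id (Primrec.const m))) hG
    have hGD : ∀ a, G a = true → ¬ D a := by
      intro a ha hDa
      apply hG (a + 1)
      exact Or.inl ⟨a, by simp only [pre_getElem?]; simp [ha], hDa⟩
    let T1 : Idl U := q.T.adj G hGU
    have hT1 : q.T ≤ T1 := Idl.le_adj _ _ _
    have dG : Dl T1.car (fun a : ℕ => G a = true) :=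
      T1.sig.dcomp (p := fun x : ℕ × Bool => G x.1 = x.2) (f := fun a : ℕ => (a, true))
        (graph_adj hs G) (Primrec.pair Primrec.id (Primrec.const true))
    have hup : ∀ a b, q.Q a → G a = true → q.Q b → R a b → G b = true := by
      intro a b hQa hGa hQb hab
      by_contra hGb
      have hAa : ¬ q.A a := fun h => hGD a hGa (q.AD a h)
      have hAb : ¬ q.A b := fun h => hAa (q.Adown a b (q.QC a hQa) h hab)
      apply hG (max a b + 1)
      refine Or.inr (Or.inl ⟨(a, b), ⟨?_, ?_⟩, ⟨⟨hQa, hAa⟩, ⟨hQb, hAb⟩⟩, hab⟩)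
      · simp only [pre_getElem?]
        rw [if_pos (by omega), hGa]
      · simp only [pre_getElem?]
        rw [if_pos (by omega)]
        simpa using hGb
    let Q' : ℕ → Prop := fun a => q.Q a ∧ ¬ G a = true
    obtain ⟨T2, hT2, l, dl, hl, ltot, lext, lcod⟩ := H.hb T1 (_root_.le_trans q.hT hT1) Q'
      (T1.sig.dand (Dl.mono hT1 q.dQ) dG.not) (fun a ha => ⟨q.DQ a ha, fun h => hGD a h ha⟩)
      (fun a ha => q.QC a ha.1) (by
        rintro a b hCa ⟨hb, hb'⟩ hab
        have hQa := q.Qdown a b hCa hb hab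
        exact ⟨hQa, fun hGa => hb' (hup a b hQa hGa hb hab)⟩)
    let V : ℕ → Prop := fun a => q.Q a ∧ G a = true
    have hVW : ∀ a, V a → C a ∧ ¬ Q' a := fun a ha => ⟨q.QC a ha.1, fun h => h.2 ha.2⟩
    obtain ⟨r, hqr, hA, hQ, _, _⟩ := q.insert 3 (Or.inr rfl) T2 (_root_.le_trans hT1 hT2) V
      (T2.sig.dand (Dl.mono (_root_.le_trans hT1 hT2) q.dQ) (Dl.mono hT2 dG)) (fun a ha => ha.1)
      (fun a ha hA => hGD a ha.2 (q.AD a hA)) l dl hl
      (fun a b ha hb => ltot a b (hVW a ha) (hVW b hb))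
      (fun a b ha hb => lext a b (hVW a ha) (hVW b hb))
      (fun f hf => lcod f ⟨fun i => hVW _ (hf.1 i), hf.2⟩)
      (fun h => by omega)
      (fun _ => ⟨fun a ha => hGD a ha.2, fun a b ha hb hab => ⟨hb, hup a b ha.1 ha.2 hb hab⟩⟩)
    refine ⟨r, hqr, Or.inl ⟨m, hm, ?_⟩⟩
    intro L hL s hBs
    obtain ⟨t, ht1, ht2⟩ := exists_sorted hL.spo hL.tot ((Finset.range s).filter C)
      (fun x hx => (Finset.mem_filter.1 hx).2)
    have hmem : ∀ x, x ∈ t ↔ C x ∧ x < s := by
      intro x; rw [ht1, Finset.mem_filter, Finset.mem_range]; tauto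
    apply hG s
    refine Or.inr (Or.inr ⟨t, s, ⟨by simp, ?_⟩, ⟨?_, ?_⟩, ?_⟩)
    · rw [strT_eq hL.spo hL.sub ht2 hmem le_rfl]; exact hBs
    · intro a ha; simpa using (hmem a).1 ha
    · intro a ha hCa; exact (hmem a).2 ⟨hCa, by simpa using ha⟩
    · refine ht2.imp_of_mem ?_
      intro a b ha hb hab
      have hCa := ((hmem a).1 ha).1
      have hCb := ((hmem b).1 hb).1
      have hnba : ¬ L b a := fun h => hL.spo.irr _ (hL.spo.tr _ _ _ hab h)
      refine ⟨⟨?_, ?_⟩, ?_⟩
      · rintro rfl; exact hL.spo.irr _ hab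
      · intro h; exact hnba (hL.ext _ _ hCb hCa (hqr.O _ _ hCb hCa h))
      · rintro ⟨⟨hMa, hMb⟩, hGa, hGb⟩
        simp only [pre_getElem?] at hGa hGb
        split_ifs at hGa hGb with h1 h2
        simp only [Option.some.injEq] at hGa hGb
        apply hnba
        apply hL.ext _ _ hCb hCa
        apply r.high
        · rw [hQ]; exact ⟨hMb.1, fun h => by rw [h.2.2] at hGb; exact absurd hGb (by simp)⟩
        · exact hCa
        · rw [hQ]; rintro ⟨_, h⟩; exact h ⟨rfl, hMa.1, hGa⟩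
  · -- otherwise `U` is covered by a member of the ideal
    push Not at hcase
    obtain ⟨m, hmF, hmU⟩ : ∃ m, (∀ G : ℕ → Bool, ∃ s, Brk q B (pre G s, m)) ∧ ¬ U m := by
      by_contra hcon
      push Not at hcon
      apply q.T.avoid
      rw [← sg_nat]
      refine hF.congr (fun m => ⟨fun h => hcon m h, fun h G => ?_⟩)
      exact hcase m h G
    obtain ⟨s, hsB⟩ := hmF (fun a => decide (C a ∧ ¬ D a))
    have hget : ∀ a b, (pre (fun a => decide (C a ∧ ¬ D a)) s)[a]? = some b →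
        a < s ∧ (decide (C a ∧ ¬ D a)) = b := by
      intro a b h
      rw [pre_getElem?] at h
      split_ifs at h with h1
      exact ⟨h1, by simpa using h⟩
    rcases hsB with ⟨a, ha, hDa⟩ | ⟨⟨a, b⟩, ⟨ha, hb⟩, ⟨hMa, hMb⟩, hab⟩ | ⟨t, s', ⟨hs', hBt⟩, ⟨ht1, ht2⟩, hp⟩
    · exfalso
      have := (hget a true ha).2
      rw [decide_eq_true_eq] at this
      exact this.2 hDa
    · exfalso
      have h1 := (hget a true ha).2
      have h2 := (hget b false hb).2
      rw [decide_eq_true_eq] at h1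
      rw [decide_eq_false_iff_not] at h2
      have hCb := q.QC b hMb.1
      have hDb : D b := by
        by_contra h
        exact h2 ⟨hCb, h⟩
      exact h1.2 (H.hdown a b h1.1 hDb hab)
    · simp only [pre_length] at hs' ht1 ht2
      have hpos := List.pairwise_iff_get.1 hp
      obtain ⟨r, hqr, hr⟩ := FCond.absorb_seq H t.get (fun i => (ht1 _ (List.get_mem t i)).1) _ q rfl (by
        intro i j hij
        obtain ⟨⟨h1, h2⟩, h3⟩ := hpos i j hij
        refine ⟨h1, h2, ?_⟩
        rintro ⟨hMi, hDi, hMj, hDj⟩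
        apply h3
        refine ⟨⟨hMi, hMj⟩, ?_, ?_⟩
        · simp only [pre_getElem?]
          rw [if_pos (ht1 _ (List.get_mem t i)).2]
          simpa using ⟨q.QC _ hMi.1, hDi⟩
        · simp only [pre_getElem?]
          rw [if_pos (ht1 _ (List.get_mem t j)).2]
          simpa using fun _ => hDj)
      refine ⟨r, hqr, Or.inr ⟨m, hmU, ?_⟩⟩
      intro L hL
      refine ⟨s', ?_⟩
      have htL : t.Pairwise L := by
        rw [List.pairwise_iff_get]
        intro i j hij
        exact hL.ext _ _ (ht1 _ (List.get_mem t i)).1 (ht1 _ (List.get_mem t j)).1 (hr i j hij)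
      rw [← strT_eq hL.spo hL.sub htL (u := s) (fun x => ⟨fun h => ht1 x h, fun h => ht2 x h.2 h.1⟩) hs']
      exact hBt

end EXT88
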