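import Pool.Agent.Helper88.EXT.Adj

/-!
# Ideals avoiding `U`, coded orders, solutions; the generic sequence lemma
-/

open Encodable

set_option linter.unusedSectionVars false

namespace EXT88

variable {U : ℕ → Prop} {α β : Type} [Primcodable α] [Primcodable β]

/-- A countable `Σ` class that does not contain `U`. -/
structure Idl (U : ℕ → Prop) where
  car : Set (ℕ → Prop)
  sig : IsSig car
  ctb : car.Countable
  avoid : U ∉ car

instance : Preorder (Idl U) where
  le S T := S.car ⊆ T.car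
  le_refl S := Set.Subset.refl _
  le_trans _ _ _ h1 h2 := Set.Subset.trans h1 h2

theorem Idl.le_def {S T : Idl U} : S ≤ T ↔ S.car ⊆ T.car := Iff.rfl

/-- Adjoining a function. -/
def Idl.adj (S : Idl U) (Y : ℕ → β) (h : U ∉ Adj S.car Y) : Idl U :=
  ⟨Adj S.car Y, adj_isSig S.sig Y, adj_countable S.ctb Y, h⟩

theorem Idl.le_adj (S : Idl U) (Y : ℕ → β) (h : U ∉ Adj S.car Y) : S ≤ S.adj Y h :=
  subset_adj S.sig Y

theorem iUnion_isSig {S : ℕ → Set (ℕ → Prop)} (h : ∀ k, IsSig (S k)) (hm : Monotone S) :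
    IsSig (⋃ k, S k) := by
  constructor
  · intro p hp
    exact Set.mem_iUnion.2 ⟨0, (h 0).prim p hp⟩
  · intro p f hp hf
    obtain ⟨k, hk⟩ := Set.mem_iUnion.1 hp
    exact Set.mem_iUnion.2 ⟨k, (h k).subst p f hk hf⟩
  · intro p q hp hq
    obtain ⟨k, hk⟩ := Set.mem_iUnion.1 hp
    obtain ⟨l, hl⟩ := Set.mem_iUnion.1 hq
    exact Set.mem_iUnion.2 ⟨max k l, (h _).and p q (hm (le_max_left _ _) hk) (hm (le_max_right _ _) hl)⟩
  · intro p q hp hq
    obtain ⟨k, hk⟩ := Set.mem_iUnion.1 hp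
    obtain ⟨l, hl⟩ := Set.mem_iUnion.1 hq
    exact Set.mem_iUnion.2 ⟨max k l, (h _).or p q (hm (le_max_left _ _) hk) (hm (le_max_right _ _) hl)⟩
  · intro p hp
    obtain ⟨k, hk⟩ := Set.mem_iUnion.1 hp
    exact Set.mem_iUnion.2 ⟨k, (h k).ex p hk⟩
  · intro p hp
    obtain ⟨k, hk⟩ := Set.mem_iUnion.1 hp
    exact Set.mem_iUnion.2 ⟨k, (h k).ball p hk⟩

/-- The union of an increasing sequence of ideals. -/
def Idl.sup (S : ℕ → Idl U) (h : ∀ k, S k ≤ S (k + 1)) : Idl U where
  car := ⋃ k, (S k).car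
  sig := iUnion_isSig (fun k => (S k).sig) (monotone_nat_of_le_succ h)
  ctb := Set.countable_iUnion fun k => (S k).ctb
  avoid := by
    intro hU
    obtain ⟨k, hk⟩ := Set.mem_iUnion.1 hU
    exact (S k).avoid hk

theorem Idl.le_sup (S : ℕ → Idl U) (h : ∀ k, S k ≤ S (k + 1)) (k : ℕ) : S k ≤ Idl.sup S h :=
  Set.subset_iUnion (fun k => (S k).car) k

/-- Enumeration of the members of an ideal. -/
theorem Idl.exists_enum (S : Idl U) : ∃ e : ℕ → (ℕ → Prop), ∀ p, p ∈ S.car ↔ ∃ n, e n = p := by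
  have hne : S.car.Nonempty := by
    refine ⟨fun _ => True, ?_⟩
    rw [← sg_nat]; exact S.sig.true'
  obtain ⟨e, he⟩ := S.ctb.exists_eq_range hne
  exact ⟨e, fun p => by rw [he]; rfl⟩

/-- A strict partial order on `ℕ`. -/
structure SPO (R : ℕ → ℕ → Prop) : Prop where
  irr : ∀ x, ¬ R x x
  tr : ∀ x y z, R x y → R y z → R x z

/-- `f` is a descending sequence of `R` in `C`. -/
def Desc (R : ℕ → ℕ → Prop) (C : ℕ → Prop) (f : ℕ → ℕ) : Prop :=
  (∀ i, C (f i)) ∧ ∀ i, R (f (i + 1)) (f i)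

/-- Every descending sequence of `R` in `C` enumerates `U` relative to `S`. -/
def Coded (U : ℕ → Prop) (R : ℕ → ℕ → Prop) (C : ℕ → Prop) (S : Set (ℕ → Prop)) : Prop :=
  ∀ f : ℕ → ℕ, Desc R C f → U ∈ Adj S f

/-- Over some larger ideal there is a linearisation of `R` on `C` which is coded. -/
def Sol (R : ℕ → ℕ → Prop) (C : ℕ → Prop) (S : Idl U) : Prop :=
  ∃ T : Idl U, S ≤ T ∧ ∃ L : ℕ → ℕ → Prop, Dl T.car (fun x : ℕ × ℕ => L x.1 x.2) ∧ SPO L ∧
    (∀ x y, C x → C y → x ≠ y → L x y ∨ L y x) ∧ (∀ x y, C x → C y → R x y → L x y) ∧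
    Coded U L C T.car

/-- The generic sequence lemma: every condition issues countably many requirements, each of which
can be met by extending any later condition. -/
theorem generic {Q : Type*} (le : Q → Q → Prop) (hrefl : ∀ q, le q q)
    (htrans : ∀ p q r, le p q → le q r → le p r) (D : Q → ℕ → Q → Prop)
    (h : ∀ q p n, le q p → ∃ r, le p r ∧ D q n r) (q₀ : Q) :
    ∃ s : ℕ → Q, s 0 = q₀ ∧ (∀ k, le (s k) (s (k + 1))) ∧
      ∀ k n, ∃ j, k ≤ j ∧ D (s k) n (s j) := by
  classical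
  have hex : ∀ (p q : Q) (n : ℕ), ∃ r, le p r ∧ (le q p → D q n r) := by
    intro p q n
    by_cases hqp : le q p
    · obtain ⟨r, h1, h2⟩ := h q p n hqp
      exact ⟨r, h1, fun _ => h2⟩
    · exact ⟨p, hrefl p, fun h' => absurd h' hqp⟩
  choose ext hext1 hext2 using hex
  -- histories
  let H : ℕ → (ℕ → Q) := fun k => Nat.rec (fun _ => q₀)
    (fun k Hk => fun i => if i ≤ k then Hk i else
      ext (Hk k) (Hk k.unpair.1) k.unpair.2) k
  have H0 : ∀ i, H 0 i = q₀ := fun i => rfl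
  have HS : ∀ k i, H (k + 1) i = if i ≤ k then H k i else
      ext (H k k) (H k k.unpair.1) k.unpair.2 := fun k i => rfl
  let s : ℕ → Q := fun k => H k k
  have hinv : ∀ k i, i ≤ k → H k i = s i := by
    intro k
    induction k with
    | zero =>
      intro i hi
      obtain rfl : i = 0 := by omega
      rfl
    | succ k ih =>
      intro i hi
      rcases Nat.lt_or_ge k i with h1 | h1
      · obtain rfl : i = k + 1 := by omega
        rfl
      · rw [HS, if_pos h1]; exact ih i h1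
  have hs : ∀ k, s (k + 1) = ext (s k) (s k.unpair.1) k.unpair.2 := by
    intro k
    change H (k + 1) (k + 1) = _
    rw [HS, if_neg (by omega), hinv k _ (Nat.unpair_left_le k)]
  have hmono1 : ∀ k, le (s k) (s (k + 1)) := by
    intro k; rw [hs]; exact hext1 _ _ _
  have hmono : ∀ i j, i ≤ j → le (s i) (s j) := by
    intro i j hij
    induction j, hij using Nat.le_induction with
    | base => exact hrefl _
    | succ j _ ih => exact htrans _ _ _ ih (hmono1 j)
  refine ⟨s, rfl, hmono1, ?_⟩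
  intro k n
  refine ⟨Nat.pair k n + 1, (Nat.left_le_pair k n).trans (Nat.le_succ _), ?_⟩
  rw [hs, Nat.unpair_pair]
  exact hext2 _ _ _ (hmono _ _ (Nat.left_le_pair k n))

end EXT88
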