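import Pool.Agent.Helper88.EXT.Lex

/-!
# Finite linear orders given by lists and initial segments of characteristic functions
-/

open Encodable

set_option linter.unusedSectionVars false

namespace EXT88

variable {U : ℕ → Prop} {α β : Type} [Primcodable α] [Primcodable β]

open Classical in
/-- The characteristic function of a binary relation. -/
noncomputable def chi (L : ℕ → ℕ → Prop) : ℕ → Bool :=
  fun i => decide (L i.unpair.1 i.unpair.2)

/-- `x` occurs before `y` in the list `t`. -/
def bef (t : List ℕ) (x y : ℕ) : Prop := t.idxOf x < t.idxOf y ∧ t.idxOf y < t.length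

instance (t : List ℕ) (x y : ℕ) : Decidable (bef t x y) := by unfold bef; infer_instance

/-- The finite string of length `s` given by the list order `t`. -/
def strT (t : List ℕ) (s : ℕ) : List Bool :=
  (List.range s).map fun i => decide (bef t i.unpair.1 i.unpair.2)

theorem strT_primrec : Primrec (fun x : List ℕ × ℕ => strT x.1 x.2) := by
  unfold strT
  apply Primrec.list_map (Primrec.list_range.comp Primrec.snd)
  apply PrimrecPred.decide (p := fun x : (List ℕ × ℕ) × ℕ => bef x.1.1 x.2.unpair.1 x.2.unpair.2)
  unfold bef
  apply PrimrecPred.and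
  · apply Primrec.nat_lt.comp
    · exact Primrec.list_idxOf.comp (Primrec.fst.comp (Primrec.unpair.comp Primrec.snd)) (Primrec.fst.comp Primrec.fst)
    · exact Primrec.list_idxOf.comp (Primrec.snd.comp (Primrec.unpair.comp Primrec.snd)) (Primrec.fst.comp Primrec.fst)
  · apply Primrec.nat_lt.comp
    · exact Primrec.list_idxOf.comp (Primrec.snd.comp (Primrec.unpair.comp Primrec.snd)) (Primrec.fst.comp Primrec.fst)
    · exact Primrec.list_length.comp (Primrec.fst.comp Primrec.fst)

theorem bef_iff {L : ℕ → ℕ → Prop} (hL : SPO L) {t : List ℕ} (ht : t.Pairwise L) {x y : ℕ}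
    (hx : x ∈ t) (hy : y ∈ t) : bef t x y ↔ L x y := by
  have hx' := List.idxOf_lt_length_of_mem hx
  have hy' := List.idxOf_lt_length_of_mem hy
  rw [List.pairwise_iff_getElem] at ht
  constructor
  · rintro ⟨h1, h2⟩
    have := ht _ _ hx' hy' h1
    simpa using this
  · intro h
    refine ⟨?_, hy'⟩
    rcases lt_trichotomy (t.idxOf x) (t.idxOf y) with h1 | h1 | h1
    · exact h1
    · have : x = y := by
        have e1 := List.getElem_idxOf hx'
        have e2 := List.getElem_idxOf hy'
        rw [← e1, ← e2]
        simp only [h1]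
      subst this
      exact absurd h (hL.irr _)
    · have := ht _ _ hy' hx' h1
      simp only [List.getElem_idxOf] at this
      exact absurd (hL.tr _ _ _ h this) (hL.irr _)

/-- If `t` lists `C ∩ [0,u)` in the order of `L`, it computes the characteristic function of `L`
below `u`. -/
theorem strT_eq {L : ℕ → ℕ → Prop} (hL : SPO L) {C : ℕ → Prop} (hLC : ∀ x y, L x y → C x ∧ C y)
    {t : List ℕ} {u s : ℕ} (ht : t.Pairwise L) (hmem : ∀ x, x ∈ t ↔ C x ∧ x < u) (hs : s ≤ u) :
    strT t s = pre (chi L) s := by
  unfold strT pre chi
  apply List.map_congr_left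
  intro i hi
  rw [List.mem_range] at hi
  have h1 : i.unpair.1 < u := lt_of_le_of_lt (Nat.unpair_left_le i) (by omega)
  have h2 : i.unpair.2 < u := lt_of_le_of_lt (Nat.unpair_right_le i) (by omega)
  apply decide_eq_decide.2
  constructor
  · intro h
    have hx : i.unpair.1 ∈ t := by
      by_contra hx
      have := List.idxOf_eq_length hx
      have h' := h.1.trans h.2
      omega
    have hy : i.unpair.2 ∈ t := by
      by_contra hy
      have := List.idxOf_eq_length hy
      have h' := h.2
      omega
    exact (bef_iff hL ht hx hy).1 h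
  · intro h
    have hx : i.unpair.1 ∈ t := (hmem _).2 ⟨(hLC _ _ h).1, h1⟩
    have hy : i.unpair.2 ∈ t := (hmem _).2 ⟨(hLC _ _ h).2, h2⟩
    exact (bef_iff hL ht hx hy).2 h

/-- A finite subset of a linearly ordered set can be listed in increasing order. -/
theorem exists_sorted {L : ℕ → ℕ → Prop} (hL : SPO L) {C : ℕ → Prop}
    (htot : ∀ x y, C x → C y → x ≠ y → L x y ∨ L y x) (s : Finset ℕ) (hs : ∀ x ∈ s, C x) :
    ∃ t : List ℕ, (∀ x, x ∈ t ↔ x ∈ s) ∧ t.Pairwise L := by
  classical
  induction s using Finset.induction_on with
  | empty => exact ⟨[], by simp, List.Pairwise.nil⟩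
  | insert a s ha ih =>
    obtain ⟨t, ht1, ht2⟩ := ih (fun x hx => hs x (Finset.mem_insert_of_mem hx))
    refine ⟨t.filter (fun x => L x a) ++ a :: t.filter (fun x => L a x), ?_, ?_⟩
    · intro x
      simp only [List.mem_append, List.mem_filter, decide_eq_true_eq, List.mem_cons,
        Finset.mem_insert, ht1]
      constructor
      · rintro (h | h | h)
        · exact Or.inr h.1
        · exact Or.inl h
        · exact Or.inr h.1
      · rintro (h | h)
        · exact Or.inr (Or.inl h)
        · have hxa : x ≠ a := by rintro rfl; exact ha h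
          rcases htot x a (hs _ (Finset.mem_insert_of_mem h)) (hs _ (Finset.mem_insert_self _ _)) hxa with h' | h'
          · exact Or.inl ⟨h, h'⟩
          · exact Or.inr (Or.inr ⟨h, h'⟩)
    · rw [List.pairwise_append]
      refine ⟨ht2.filter _, ?_, ?_⟩
      · rw [List.pairwise_cons]
        refine ⟨?_, ht2.filter _⟩
        intro x hx
        simpa using (List.mem_filter.1 hx).2
      · intro x hx y hy
        have hx' : L x a := by simpa using (List.mem_filter.1 hx).2
        rw [List.mem_cons] at hy
        rcases hy with rfl | hy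
        · exact hx'
        · exact hL.tr _ _ _ hx' (by simpa using (List.mem_filter.1 hy).2)

end EXT88
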