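import Pool.Agent.Helper88.EXT.Decide

/-!
# Lemma 4: the limit order
-/

open Encodable

set_option linter.unusedSectionVars false

namespace EXT88

variable {U : ℕ → Prop} {R : ℕ → ℕ → Prop} {C D : ℕ → Prop} {S : Idl U}

/-- The operator coded by a predicate on `ℕ`. -/
def opOf (P : ℕ → Prop) : List Bool × ℕ → Prop := fun x => P (encode x)

theorem lemma4_aux (H : L4Hyp R C D S) :
    ∃ T : Idl U, S ≤ T ∧ ∃ L : ℕ → ℕ → Prop, Dl T.car (fun x : ℕ × ℕ => L x.1 x.2) ∧ SPO L ∧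
      (∀ x y, C x → C y → x ≠ y → L x y ∨ L y x) ∧ (∀ x y, C x → C y → R x y → L x y) ∧
      ∀ f : ℕ → ℕ, Desc L C f → U ∈ Adj T.car f ∨
        ((∀ i, ¬ D (f i)) ∧ Sg (Adj T.car f) (fun x => C x ∧ ¬ D x)) := by
  choose e he using fun q : FCond R C D S => q.T.exists_enum
  obtain ⟨s, hs0, hs1, hsD⟩ := generic (Q := FCond R C D S) FCond.le FCond.le_refl
    (fun _ _ _ h1 h2 => FCond.le_trans h1 h2)
    (fun q n r => (C n → r.A n ∨ ¬ r.Q n) ∧ Met r (opOf (e q n))) (by
      intro q p n hqp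
      obtain ⟨r, hpr, hr⟩ : ∃ r : FCond R C D S, p.le r ∧ (C n → r.A n ∨ ¬ r.Q n) := by
        by_cases hn : C n
        · obtain ⟨r, h1, h2⟩ := p.absorb H hn
          exact ⟨r, h1, fun _ => h2⟩
        · exact ⟨p, p.le_refl, fun h => absurd h hn⟩
      have hB : Sg r.T.car (opOf (e q n)) := by
        have h1 : e q n ∈ r.T.car := hpr.T (hqp.T ((he q _).2 ⟨n, rfl⟩))
        exact r.T.sig.comp (f := fun x : List Bool × ℕ => (encode x : ℕ)) (sg_nat.2 h1) Primrec.encode
      obtain ⟨r', hrr', hr'⟩ := decide_op H r hB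
      refine ⟨r', FCond.le_trans hpr hrr', ?_, hr'⟩
      intro hn
      rcases hr hn with h | h
      · exact Or.inl (hrr'.A _ h)
      · exact Or.inr (fun h' => h (hrr'.Q _ h')))
    (FCond.init S H.hR H.hRS H.hC H.hDC)
  have hmono : ∀ i j, i ≤ j → (s i).le (s j) := by
    intro i j hij
    induction j, hij using Nat.le_induction with
    | base => exact FCond.le_refl _
    | succ j _ ih => exact FCond.le_trans ih (hs1 j)
  -- the limit order
  let L : ℕ → ℕ → Prop := fun x y => C x ∧ C y ∧ ∃ k, (s k).O x y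
  have hLspo : SPO L := by
    constructor
    · rintro x ⟨_, _, k, h⟩; exact (s k).spo.irr _ h
    · rintro x y z ⟨hx, hy, k, h⟩ ⟨_, hz, l, h'⟩
      refine ⟨hx, hz, max k l, ?_⟩
      exact (s (max k l)).spo.tr _ _ _ ((hmono _ _ (le_max_left _ _)).O _ _ hx hy h)
        ((hmono _ _ (le_max_right _ _)).O _ _ hy hz h')
  have habs : ∀ x, C x → ∃ j, (s j).A x ∨ ¬ (s j).Q x := by
    intro x hx
    obtain ⟨j, _, h, _⟩ := hsD 0 x
    exact ⟨j, h hx⟩
  have hQA : ∀ j x, ¬ (s j).Q x → ¬ (s j).A x := fun j x h h' => h ((s j).DQ x ((s j).AD x h'))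
  have hLtot : ∀ x y, C x → C y → x ≠ y → L x y ∨ L y x := by
    intro x y hx hy hxy
    obtain ⟨i, hi⟩ := habs x hx
    obtain ⟨j, hj⟩ := habs y hy
    have hi' : (s (max i j)).A x ∨ ¬ (s (max i j)).Q x := by
      rcases hi with h | h
      · exact Or.inl ((hmono _ _ (le_max_left _ _)).A _ h)
      · exact Or.inr fun h' => h ((hmono _ _ (le_max_left _ _)).Q _ h')
    have hj' : (s (max i j)).A y ∨ ¬ (s (max i j)).Q y := by
      rcases hj with h | h
      · exact Or.inl ((hmono _ _ (le_max_right _ _)).A _ h)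
      · exact Or.inr fun h' => h ((hmono _ _ (le_max_right _ _)).Q _ h')
    rcases hi' with h1 | h1 <;> rcases hj' with h2 | h2
    · rcases (s (max i j)).totA x y h1 h2 hxy with h | h
      · exact Or.inl ⟨hx, hy, _, h⟩
      · exact Or.inr ⟨hy, hx, _, h⟩
    · exact Or.inl ⟨hx, hy, _, (s (max i j)).low x y h1 hy (hQA _ _ h2)⟩
    · exact Or.inr ⟨hy, hx, _, (s (max i j)).low y x h2 hx (hQA _ _ h1)⟩
    · rcases (s (max i j)).totN x y hx h1 hy h2 hxy with h | h
      · exact Or.inl ⟨hx, hy, _, h⟩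
      · exact Or.inr ⟨hy, hx, _, h⟩
  have hLas : ∀ x y, L x y → ¬ L y x := fun x y h h' => hLspo.irr _ (hLspo.tr _ _ _ h h')
  have hcompat : ∀ j, Compat L (s j) := fun j =>
    ⟨hLspo, fun x y h => ⟨h.1, h.2.1⟩, hLtot, fun x y hx hy h => ⟨hx, hy, j, h⟩⟩
  -- the union ideal
  let Tω : Idl U := Idl.sup (fun k => (s k).T) (fun k => (hs1 k).T)
  have hTω : ∀ k, (s k).T ≤ Tω := fun k => Idl.le_sup (fun k => (s k).T) (fun k => (hs1 k).T) k
  have hav : U ∉ Adj Tω.car (chi L) := by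
    rintro ⟨B, hB, hU⟩
    obtain ⟨k, hk⟩ := Set.mem_iUnion.1 (show _ ∈ ⋃ k, (s k).T.car from hB)
    obtain ⟨n, hn⟩ := (he (s k) _).1 hk
    obtain ⟨j, _, _, hmet⟩ := hsD k n
    have hop : ∀ x, opOf (e (s k) n) x ↔ B x := by
      intro x
      unfold opOf
      rw [hn]
      simp
    rcases hmet with ⟨m, hm, h⟩ | ⟨m, hm, h⟩
    · obtain ⟨t, ht⟩ := (hU m).1 hm
      exact h L (hcompat j) t ((hop _).2 ht)
    · obtain ⟨t, ht⟩ := h L (hcompat j)
      exact hm ((hU m).2 ⟨t, (hop _).1 ht⟩)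
  let T : Idl U := Tω.adj (chi L) hav
  have hT : ∀ k, (s k).T ≤ T := fun k => _root_.le_trans (hTω k) (Idl.le_adj _ _ _)
  have hST : S ≤ T := _root_.le_trans (s 0).hT (hT 0)
  have hLdl : Dl T.car (fun x : ℕ × ℕ => L x.1 x.2) := by
    have h1 := T.sig.dcomp (p := fun x : ℕ × Bool => chi L x.1 = x.2)
      (f := fun x : ℕ × ℕ => (Nat.pair x.1 x.2, true)) (graph_adj Tω.sig (chi L))
      (Primrec.pair (Primrec₂.natPair.comp Primrec.fst Primrec.snd) (Primrec.const true))
    refine h1.congr ?_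
    rintro ⟨x, y⟩
    simp [chi]
  refine ⟨T, hST, L, hLdl, hLspo, hLtot, ?_, ?_⟩
  · intro x y hx hy h
    exact ⟨hx, hy, 0, (s 0).ext x y hx hy h⟩
  · intro f hf
    -- descending sequences inside a solved block
    have hsolved : ∀ j i, (∀ k, (s j).A (f (i + k)) ∨ ¬ (s j).Q (f (i + k))) → U ∈ Adj T.car f := by
      intro j i hW
      apply adj_shift T.sig f i
      apply Adj.mono (hT j)
      apply (s j).cod
      refine ⟨fun k => ?_, fun k => ?_⟩
      · rcases hW k with h | h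
        · exact Or.inl h
        · exact Or.inr ⟨hf.1 _, h⟩
      · have hL : L (f (i + (k + 1))) (f (i + k)) := hf.2 (i + k)
        have hne : f (i + (k + 1)) ≠ f (i + k) := by
          intro h
          rw [h] at hL
          exact hLspo.irr _ hL
        have hnot : ¬ (s j).O (f (i + k)) (f (i + (k + 1))) := fun h =>
          hLas _ _ hL ⟨hf.1 _, hf.1 _, j, h⟩
        rcases hW k with h1 | h1 <;> rcases hW (k + 1) with h2 | h2
        · exact ((s j).totA _ _ h2 h1 hne).resolve_right hnot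
        · exact absurd ((s j).low _ _ h1 (hf.1 _) (hQA _ _ h2)) hnot
        · exact (s j).low _ _ h2 (hf.1 _) (hQA _ _ h1)
        · exact ((s j).totN _ _ (hf.1 _) h2 (hf.1 _) h1 hne).resolve_right hnot
    by_cases hmeet : ∃ i, D (f i)
    · left
      obtain ⟨i, hi⟩ := hmeet
      obtain ⟨j, hj⟩ := habs (f i) (hf.1 i)
      have hj' : (s j).A (f i) := hj.resolve_right (fun h => h ((s j).DQ _ hi))
      apply hsolved j i
      intro k
      left
      induction k with
      | zero => exact hj'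
      | succ k ih =>
        by_contra hcon
        have h1 : L (f (i + k)) (f (i + (k + 1))) :=
          ⟨hf.1 _, hf.1 _, j, (s j).low _ _ ih (hf.1 _) hcon⟩
        exact hLas _ _ h1 (hf.2 (i + k))
    · push Not at hmeet
      by_cases hout : ∃ j, ∀ i, ¬ (s j).Q (f i)
      · left
        obtain ⟨j, hj⟩ := hout
        exact hsolved j 0 (fun k => Or.inr (hj _))
      · right
        push Not at hout
        refine ⟨hmeet, ?_⟩
        have hs' : IsSig (Adj T.car f) := adj_isSig T.sig f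
        have hgr := (graph_adj T.sig f).1
        have hL' : Sg (Adj T.car f) (fun x : ℕ × ℕ => L x.1 x.2) := Sg.mono (subset_adj T.sig f) hLdl.1
        have hC' : Sg (Adj T.car f) C := Sg.mono (subset_adj T.sig f) (Sg.mono hST H.hC.1)
        have h1 : Sg (Adj T.car f) (fun x : ℕ => C x ∧ ∃ iy : ℕ × ℕ, f iy.1 = iy.2 ∧
            (iy.2 = x ∨ L iy.2 x)) := by
          apply hs'.and' hC'
          apply hs'.ex' (p := fun (x : ℕ) (iy : ℕ × ℕ) => f iy.1 = iy.2 ∧ (iy.2 = x ∨ L iy.2 x))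
          apply hs'.and'
          · exact hs'.comp (p := fun x : ℕ × ℕ => f x.1 = x.2) (f := fun x : ℕ × ℕ × ℕ => x.2) hgr
              Primrec.snd
          · apply hs'.or'
            · apply hs'.primPred
              exact Primrec.eq.comp (Primrec.snd.comp Primrec.snd) Primrec.fst
            · exact hs'.comp (p := fun x : ℕ × ℕ => L x.1 x.2)
                (f := fun x : ℕ × ℕ × ℕ => (x.2.2, x.1)) hL'
                (Primrec.pair (Primrec.snd.comp Primrec.snd) Primrec.fst)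
        refine h1.congr ?_
        intro x
        constructor
        · rintro ⟨hCx, ⟨i, y⟩, hfy, hy⟩
          simp only at hfy hy
          refine ⟨hCx, fun hDx => ?_⟩
          rcases hy with hy | hy
          · rw [hy] at hfy
            exact hmeet i (hfy ▸ hDx)
          · obtain ⟨j, hj⟩ := habs x hCx
            have hj' : (s j).A x := hj.resolve_right (fun h => h ((s j).DQ _ hDx))
            have h2 : ¬ (s j).A y := fun h => hmeet i (hfy ▸ (s j).AD _ h)
            exact hLas _ _ hy ⟨hCx, hy.1, j, (s j).low _ _ hj' hy.1 h2⟩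
        · rintro ⟨hCx, hDx⟩
          refine ⟨hCx, ?_⟩
          obtain ⟨j, hj⟩ := habs x hCx
          have hj' : ¬ (s j).Q x := hj.resolve_left (fun h => hDx ((s j).AD _ h))
          obtain ⟨i, hi⟩ := hout j
          refine ⟨(i, f i), rfl, Or.inr ?_⟩
          exact ⟨hf.1 _, hCx, j, (s j).high _ _ hi hCx hj'⟩

/-- Lemma 4. -/
theorem lemma4 {R : ℕ → ℕ → Prop} (hR : SPO R) (S : Idl U)
    (hRS : Dl S.car (fun x : ℕ × ℕ => R x.1 x.2)) (C D : ℕ → Prop)
    (hC : Dl S.car C) (hD : Sg S.car D) (hDC : ∀ x, D x → C x)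
    (hdown : ∀ x y, C x → D y → R x y → D x)
    (ha : ∀ x, D x → ∀ T : Idl U, S ≤ T → Sol R (fun y => C y ∧ R y x) T)
    (hb : ∀ T : Idl U, S ≤ T → ∀ Q : ℕ → Prop, Dl T.car Q → (∀ x, D x → Q x) →
      (∀ x, Q x → C x) → (∀ x y, C x → Q y → R x y → Q x) → Sol R (fun x => C x ∧ ¬ Q x) T) :
    ∃ T : Idl U, S ≤ T ∧ ∃ L : ℕ → ℕ → Prop, Dl T.car (fun x : ℕ × ℕ => L x.1 x.2) ∧ SPO L ∧
      (∀ x y, C x → C y → x ≠ y → L x y ∨ L y x) ∧ (∀ x y, C x → C y → R x y → L x y) ∧
      ∀ f : ℕ → ℕ, Desc L C f → U ∈ Adj T.car f ∨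
        ((∀ i, ¬ D (f i)) ∧ Sg (Adj T.car f) (fun x => C x ∧ ¬ D x)) :=
  lemma4_aux ⟨hR, hRS, hC, hD, hDC, hdown, ha, hb⟩

end EXT88
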