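import Pool.Agent.Helper88.EXT.NoPath

/-!
# Lexicographic combination of orders along a finite partition
-/

open Encodable

set_option linter.unusedSectionVars false

namespace EXT88

variable {U : ℕ → Prop} {α β : Type} [Primcodable α] [Primcodable β]

/-- Order the pieces `p = 0, 1, 2, ...` one after another, using `Rs i` inside the piece `i`. -/
def lexRel (p : ℕ → ℕ) (Rs : ℕ → ℕ → ℕ → Prop) : ℕ → ℕ → Prop :=
  fun x y => p x < p y ∨ (p x = p y ∧ Rs (p x) x y)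

theorem lexRel_spo {p : ℕ → ℕ} {Rs : ℕ → ℕ → ℕ → Prop} (h : ∀ i, SPO (Rs i)) :
    SPO (lexRel p Rs) := by
  constructor
  · rintro x (h1 | ⟨_, h1⟩)
    · exact lt_irrefl _ h1
    · exact (h _).irr _ h1
  · rintro x y z (h1 | ⟨e1, h1⟩) (h2 | ⟨e2, h2⟩)
    · exact Or.inl (h1.trans h2)
    · exact Or.inl (e2 ▸ h1)
    · exact Or.inl (e1 ▸ h2)
    · exact Or.inr ⟨e1.trans e2, (h _).tr _ _ _ h1 (e1 ▸ h2)⟩

/-- A descending sequence is eventually in one piece. -/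
theorem lex_desc {p : ℕ → ℕ} {Rs : ℕ → ℕ → ℕ → Prop} {C : ℕ → Prop} {f : ℕ → ℕ}
    (hf : Desc (lexRel p Rs) C f) :
    ∃ k, (∀ i, p (f (k + i)) = p (f k)) ∧ Desc (Rs (p (f k))) (fun x => C x ∧ p x = p (f k)) (fun i => f (k + i)) := by
  have hanti : ∀ i, p (f (i + 1)) ≤ p (f i) := by
    intro i
    rcases hf.2 i with h | ⟨h, _⟩
    · exact h.le
    · exact h.le
  have hanti' : Antitone (fun i => p (f i)) := antitone_nat_of_succ_le hanti
  obtain ⟨k, hk⟩ : ∃ k, ∀ i, k ≤ i → p (f i) = p (f k) := by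
    obtain ⟨k, hk⟩ := WellFounded.has_min (wellFounded_lt (α := ℕ)) (Set.range fun i => p (f i)) ⟨_, 0, rfl⟩
    obtain ⟨⟨k, rfl⟩, hmin⟩ := hk
    refine ⟨k, fun i hi => le_antisymm (hanti' hi) ?_⟩
    exact not_lt.1 (hmin _ ⟨i, rfl⟩)
  have hk' : ∀ i, p (f (k + i)) = p (f k) := fun i => hk _ (by omega)
  refine ⟨k, hk', fun i => ⟨hf.1 _, hk' i⟩, ?_⟩
  intro i
  rcases hf.2 (k + i) with h | ⟨_, h⟩
  · have h1 := hk' (i + 1)
    rw [← add_assoc] at h1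
    rw [h1, hk' i] at h
    exact absurd h (lt_irrefl _)
  · have h1 := hk' (i + 1)
    rw [← add_assoc] at h1
    rw [h1] at h
    exact h

theorem dl_graph_of_fibers {𝓣 : Set (ℕ → Prop)} (h𝓣 : IsSig 𝓣) {p : α → ℕ}
    (hfib : ∀ c, Dl 𝓣 (fun x => p x = c)) (N : ℕ) :
    Dl 𝓣 (fun x : α × ℕ => p x.1 = x.2 ∧ x.2 < N) := by
  induction N with
  | zero =>
    refine (h𝓣.dprim (p := fun _ : α × ℕ => False) ?_).congr (by simp)
    exact (Primrec.eq.comp (Primrec.const 0) (Primrec.const 1)).of_eq (by simp)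
  | succ N ih =>
    have h1 : Dl 𝓣 (fun x : α × ℕ => x.2 = N ∧ p x.1 = N) := by
      apply h𝓣.dand
      · exact h𝓣.dprim (Primrec.eq.comp Primrec.snd (Primrec.const N))
      · exact h𝓣.dcomp (p := fun x => p x = N) (hfib N) Primrec.fst
    refine (h𝓣.dor ih h1).congr ?_
    rintro ⟨x, c⟩
    simp only
    constructor
    · rintro (⟨h, h'⟩ | ⟨rfl, h⟩)
      · exact ⟨h, by omega⟩
      · exact ⟨h, by omega⟩
    · rintro ⟨h, h'⟩
      by_cases hc : c = N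
      · right; subst hc; exact ⟨rfl, h⟩
      · left; exact ⟨h, by omega⟩

theorem dl_lexRel {𝓣 : Set (ℕ → Prop)} (h𝓣 : IsSig 𝓣) {p : ℕ → ℕ} {Rs : ℕ → ℕ → ℕ → Prop} (N : ℕ)
    (hN : ∀ x, p x < N) (hfib : ∀ c, Dl 𝓣 (fun x => p x = c))
    (hRs : ∀ c, Dl 𝓣 (fun x : ℕ × ℕ => Rs c x.1 x.2)) :
    Dl 𝓣 (fun x : ℕ × ℕ => lexRel p Rs x.1 x.2) := by
  have hg : Dl 𝓣 (fun x : ℕ × ℕ => p x.1 = x.2) :=
    (dl_graph_of_fibers h𝓣 hfib (N)).congr (fun x => ⟨fun h => h.1, fun h => ⟨h, h ▸ hN _⟩⟩)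
  have h1 : Dl 𝓣 (fun x : ℕ × ℕ => ∃ i < N, ∃ j < N, i < j ∧ p x.1 = i ∧ p x.2 = j) := by
    apply h𝓣.dex_lt (p := fun (x : ℕ × ℕ) (i : ℕ) => ∃ j < N, i < j ∧ p x.1 = i ∧ p x.2 = j) _
      (Primrec.const N)
    apply h𝓣.dex_lt (p := fun (x : (ℕ × ℕ) × ℕ) (j : ℕ) => x.2 < j ∧ p x.1.1 = x.2 ∧ p x.1.2 = j) _
      (Primrec.const N)
    apply h𝓣.dand
    · exact h𝓣.dprim (Primrec.nat_lt.comp (Primrec.snd.comp Primrec.fst) Primrec.snd)
    · apply h𝓣.dand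
      · exact h𝓣.dcomp (f := fun x : ((ℕ × ℕ) × ℕ) × ℕ => (x.1.1.1, x.1.2)) hg
          (Primrec.pair (Primrec.fst.comp (Primrec.fst.comp Primrec.fst)) (Primrec.snd.comp Primrec.fst))
      · exact h𝓣.dcomp (f := fun x : ((ℕ × ℕ) × ℕ) × ℕ => (x.1.1.2, x.2)) hg
          (Primrec.pair (Primrec.snd.comp (Primrec.fst.comp Primrec.fst)) (Primrec.snd))
  have h2 : ∀ M, Dl 𝓣 (fun x : ℕ × ℕ => ∃ c < M, (p x.1 = c ∧ p x.2 = c) ∧ Rs c x.1 x.2) := by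
    intro M
    induction M with
    | zero =>
      refine (h𝓣.dprim (p := fun _ : ℕ × ℕ => False) ?_).congr (by simp)
      exact (Primrec.eq.comp (Primrec.const 0) (Primrec.const 1)).of_eq (by simp)
    | succ M ih =>
      have h1 : Dl 𝓣 (fun x : ℕ × ℕ => (p x.1 = M ∧ p x.2 = M) ∧ Rs M x.1 x.2) := by
        apply h𝓣.dand _ (hRs M)
        apply h𝓣.dand
        · exact h𝓣.dcomp (p := fun x => p x = M) (hfib M) Primrec.fst
        · exact h𝓣.dcomp (p := fun x => p x = M) (hfib M) Primrec.snd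
      refine (h𝓣.dor ih h1).congr ?_
      rintro ⟨x, y⟩
      constructor
      · rintro (⟨c, hc, h⟩ | h)
        · exact ⟨c, by omega, h⟩
        · exact ⟨M, by omega, h⟩
      · rintro ⟨c, hc, h⟩
        by_cases hcM : c = M
        · right; exact hcM ▸ h
        · left; exact ⟨c, by omega, h⟩
  refine (h𝓣.dor h1 (h2 N)).congr ?_
  rintro ⟨x, y⟩
  simp only [lexRel]
  constructor
  · rintro (⟨i, _, j, _, h, h1, h2⟩ | ⟨c, _, ⟨h1, h2⟩, h⟩)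
    · left; omega
    · right; exact ⟨h1.trans h2.symm, by rw [h1]; exact h⟩
  · rintro (h | ⟨h, h1⟩)
    · left; exact ⟨p x, hN _, p y, hN _, h, rfl, rfl⟩
    · right; exact ⟨p x, hN _, ⟨rfl, h.symm⟩, h1⟩

end EXT88
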