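import Pool.Agent.Helper88.EXT.Defs

/-!
# Emptiness of a class of paths is a Sigma predicate (compactness of Cantor space)
-/

open Encodable

set_option linter.unusedSectionVars false

namespace EXT88

variable {U : ℕ → Prop} {α β : Type} [Primcodable α] [Primcodable β]

/-- All Boolean lists of length `u`. -/
def allB (u : ℕ) : List (List Bool) :=
  Nat.rec [[]] (fun _ l => l.flatMap fun g => [g ++ [false], g ++ [true]]) u

theorem allB_zero : allB 0 = [[]] := rfl

theorem allB_succ (u : ℕ) : allB (u + 1) = (allB u).flatMap fun g => [g ++ [false], g ++ [true]] := rfl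

theorem mem_allB (u : ℕ) (g : List Bool) : g ∈ allB u ↔ g.length = u := by
  induction u generalizing g with
  | zero => simp [allB_zero]
  | succ u ih =>
    rw [allB_succ, List.mem_flatMap]
    constructor
    · rintro ⟨h, hh, hg⟩
      rw [ih] at hh
      simp only [List.mem_cons, List.not_mem_nil, or_false] at hg
      rcases hg with rfl | rfl <;> simp [hh]
    · intro hg
      have hne : g ≠ [] := by rintro rfl; simp at hg
      refine ⟨g.dropLast, (ih _).2 (by simp [hg]), ?_⟩
      have := List.dropLast_append_getLast hne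
      simp only [List.mem_cons, List.not_mem_nil, or_false]
      cases h : g.getLast hne with
      | false => left; rw [h] at this; exact this.symm
      | true => right; rw [h] at this; exact this.symm

theorem allB_primrec : Primrec allB := by
  unfold allB
  apply Primrec.nat_rec₁
  apply Primrec.list_flatMap Primrec.snd
  apply Primrec.list_cons.comp
  · exact Primrec.list_append.comp Primrec.snd (Primrec.const [false])
  · apply Primrec.list_cons.comp
    · exact Primrec.list_append.comp Primrec.snd (Primrec.const [true])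
    · exact Primrec.const []

theorem isClosed_pre (s : ℕ) (P : List Bool → Prop) : IsClosed {G : ℕ → Bool | P (pre G s)} := by
  have h1 : Continuous (fun G : ℕ → Bool => fun i : Fin s => G i) := by fun_prop
  have h2 : {G : ℕ → Bool | P (pre G s)} =
      (fun G : ℕ → Bool => fun i : Fin s => G i) ⁻¹' {g | P (List.ofFn g)} := by
    ext G
    simp only [Set.mem_ofPred_eq, Set.mem_preimage]
    have : pre G s = List.ofFn (fun i : Fin s => G i) := by
      apply List.ext_getElem <;> simp [pre]
    rw [this]
  rw [h2]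
  exact (isClosed_discrete _).preimage h1

/-- Compactness: if every path meets `E` then some level is covered. -/
theorem compact_cover {E : List Bool → Prop} (h : ∀ G : ℕ → Bool, ∃ s, E (pre G s)) :
    ∃ u, ∀ g : List Bool, g.length = u → ∃ k ≤ u, E (g.take k) := by
  by_contra hcon
  push Not at hcon
  let K : ℕ → Set (ℕ → Bool) := fun u => {G | ∀ s ≤ u, ¬ E (pre G s)}
  have hK : (⋂ u, K u).Nonempty := by
    apply IsCompact.nonempty_iInter_of_sequence_nonempty_isCompact_isClosed K
    · intro u G hG s hs
      exact hG s (by omega)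
    · intro u
      obtain ⟨g, hg, hgE⟩ := hcon u
      refine ⟨fun i => g.getD i false, ?_⟩
      intro s hs
      have : pre (fun i => g.getD i false) s = g.take s := by
        apply List.ext_getElem?
        intro i
        rw [pre_getElem?, List.getElem?_take]
        split_ifs with hi
        · rw [List.getElem?_eq_getElem (by omega), List.getD_eq_getElem _ _ (by omega)]
        · rfl
      rw [this]
      exact hgE s hs
    · have : K 0 = {G | ¬ E (pre G 0)} := by
        ext G; simp [K]
      rw [this]
      exact (isClosed_pre 0 (fun g => ¬ E g)).isCompact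
    · intro u
      have : K u = ⋂ s, ⋂ (_ : s ≤ u), {G | ¬ E (pre G s)} := by
        ext G; simp [K]
      rw [this]
      exact isClosed_iInter fun s => isClosed_iInter fun _ => isClosed_pre s (fun g => ¬ E g)
  obtain ⟨G, hG⟩ := hK
  obtain ⟨s, hs⟩ := h G
  exact (Set.mem_iInter.1 hG s) s le_rfl hs

/-- Emptiness of a class of paths is a Sigma predicate. -/
theorem sg_nopath {𝓣 : Set (ℕ → Prop)} (h𝓣 : IsSig 𝓣) {E : List Bool × α → Prop} (hE : Sg 𝓣 E) :
    Sg 𝓣 (fun a : α => ∀ G : ℕ → Bool, ∃ s, E (pre G s, a)) := by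
  have h1 : Sg 𝓣 (fun x : ((α × ℕ) × List Bool) × ℕ => E (x.1.2.take x.2, x.1.1.1)) :=
    h𝓣.comp (f := fun x : ((α × ℕ) × List Bool) × ℕ => (x.1.2.take x.2, x.1.1.1)) hE
      (Primrec.pair (Primrec.list_take.comp Primrec.snd (Primrec.snd.comp Primrec.fst))
        (Primrec.fst.comp (Primrec.fst.comp Primrec.fst)))
  have h2 : Sg 𝓣 (fun x : (α × ℕ) × List Bool => ∃ k, E (x.2.take k, x.1.1)) :=
    h𝓣.ex' (p := fun (x : (α × ℕ) × List Bool) (k : ℕ) => E (x.2.take k, x.1.1)) h1
  have h3 : Sg 𝓣 (fun x : α × ℕ => ∀ g ∈ allB x.2, ∃ k, E (g.take k, x.1)) :=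
    h𝓣.ball_mem (p := fun (x : α × ℕ) (g : List Bool) => ∃ k, E (g.take k, x.1)) h2
      (allB_primrec.comp Primrec.snd)
  refine (h𝓣.ex' (p := fun (a : α) (u : ℕ) => ∀ g ∈ allB u, ∃ k, E (g.take k, a)) h3).congr ?_
  intro a
  constructor
  · rintro ⟨u, hu⟩ G
    obtain ⟨k, hk⟩ := hu (pre G u) ((mem_allB _ _).2 (pre_length _ _))
    rcases Nat.le_total k u with h | h
    · rw [pre_take G h] at hk; exact ⟨k, hk⟩
    · rw [List.take_of_length_le (by simpa using h)] at hk; exact ⟨u, hk⟩
  · intro h
    obtain ⟨u, hu⟩ := compact_cover (E := fun g => E (g, a)) h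
    refine ⟨u, ?_⟩
    intro g hg
    obtain ⟨k, _, hk⟩ := hu g ((mem_allB _ _).1 hg)
    exact ⟨k, hk⟩

/-- A decreasing sequence of nonempty classes has a common path. -/
theorem common_path {E : ℕ → List Bool → Prop} (hmono : ∀ k g, E k g → E (k + 1) g)
    (h : ∀ k, ∃ G : ℕ → Bool, ∀ s, ¬ E k (pre G s)) : ∃ G : ℕ → Bool, ∀ k s, ¬ E k (pre G s) := by
  let K : ℕ → Set (ℕ → Bool) := fun k => {G | ∀ s, ¬ E k (pre G s)}
  have hcl : ∀ k, IsClosed (K k) := by
    intro k
    have : K k = ⋂ s, {G | ¬ E k (pre G s)} := by ext G; simp [K]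
    rw [this]
    exact isClosed_iInter fun s => isClosed_pre s (fun g => ¬ E k g)
  have hK : (⋂ k, K k).Nonempty := by
    apply IsCompact.nonempty_iInter_of_sequence_nonempty_isCompact_isClosed K
    · intro k G hG s hs
      exact hG s (hmono k _ hs)
    · exact h
    · exact (hcl 0).isCompact
    · exact hcl
  obtain ⟨G, hG⟩ := hK
  exact ⟨G, fun k s => Set.mem_iInter.1 hG k s⟩

end EXT88
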